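import Pool.Agent.N156.HT.H9
import Pool.Agent.N156.HT.D11067

/-! The sum for 31 17 7 3. -/

namespace Pool.Agent.N156.HT.D11067

open Pool.Agent.N156.HT Pool.Agent.N911.L

theorem u15 : W15 = P (w8 11067 22135) (.cons 714 31 (.cons 4557 17 (.cons 9486 7 (.cons 7378 3 .nil)))) 0 :=
  chkW_sound (by norm_num) (by norm_num) (by norm_num) c15_0
theorem u14 : W14 = P (w8 11067 14757) (.cons 714 31 (.cons 4557 17 (.cons 9486 7 .nil))) 7378 :=
  chkW_sound (by norm_num) (by norm_num) (by norm_num) c14_0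
theorem u13 : W13 = P (w8 11067 12649) (.cons 714 31 (.cons 4557 17 (.cons 7378 3 .nil))) 9486 :=
  chkW_sound (by norm_num) (by norm_num) (by norm_num) c13_0
theorem u12 : W12 = P (w8 11067 5271) (.cons 714 31 (.cons 4557 17 .nil)) 16864 :=
  chkW_sound (by norm_num) (by norm_num) (by norm_num) c12_0
theorem u11 : W11 = P (w8 11067 17578) (.cons 714 31 (.cons 9486 7 (.cons 7378 3 .nil))) 4557 :=
  chkW_sound (by norm_num) (by norm_num) (by norm_num) c11_0
theorem u10 : W10 = P (w8 11067 10200) (.cons 714 31 (.cons 9486 7 .nil)) 11935 :=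
  chkW_sound (by norm_num) (by norm_num) (by norm_num) c10_0
theorem u9 : W9 = P (w8 11067 8092) (.cons 714 31 (.cons 7378 3 .nil)) 14043 :=
  chkW_sound (by norm_num) (by norm_num) (by norm_num) c9_0
theorem u8 : W8 = P (w8 11067 714) (.cons 714 31 .nil) 21421 :=
  chkW_sound (by norm_num) (by norm_num) (by norm_num) c8_0
theorem u7 : W7 = P (w8 11067 21421) (.cons 4557 17 (.cons 9486 7 (.cons 7378 3 .nil))) 714 :=
  chkW_sound (by norm_num) (by norm_num) (by norm_num) c7_0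
theorem u6 : W6 = P (w8 11067 14043) (.cons 4557 17 (.cons 9486 7 .nil)) 8092 :=
  chkW_sound (by norm_num) (by norm_num) (by norm_num) c6_0
theorem u5 : W5 = P (w8 11067 11935) (.cons 4557 17 (.cons 7378 3 .nil)) 10200 :=
  chkW_sound (by norm_num) (by norm_num) (by norm_num) c5_0
theorem u4 : W4 = P (w8 11067 4557) (.cons 4557 17 .nil) 17578 :=
  chkW_sound (by norm_num) (by norm_num) (by norm_num) c4_0
theorem u3 : W3 = P (w8 11067 16864) (.cons 9486 7 (.cons 7378 3 .nil)) 5271 :=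
  chkW_sound (by norm_num) (by norm_num) (by norm_num) c3_0
theorem u2 : W2 = P (w8 11067 9486) (.cons 9486 7 .nil) 12649 :=
  chkW_sound (by norm_num) (by norm_num) (by norm_num) c2_0
theorem u1 : W1 = P (w8 11067 7378) (.cons 7378 3 .nil) 14757 :=
  chkW_sound (by norm_num) (by norm_num) (by norm_num) c1_0
theorem tr_eq : tr = TR (w8 11067) [(714, 31, 1843574856, 255), (4557, 17, 23784, 1), (9486, 7, 104, 255), (7378, 3, 4, 255)] .nil 0 0 :=
  mk_node (mk_node (mk_node (mk_node (mk_leaf rfl u15) (mk_leaf rfl u14)) (mk_node (mk_leaf rfl u13) (mk_leaf rfl u12))) (mk_node (mk_node (mk_leaf rfl u11) (mk_leaf rfl u10)) (mk_node (mk_leaf rfl u9) (mk_leaf rfl u8)))) (mk_node (mk_node (mk_node (mk_leaf rfl u7) (mk_leaf rfl u6)) (mk_node (mk_leaf rfl u5) (mk_leaf rfl u4))) (mk_node (mk_node (mk_leaf rfl u3) (mk_leaf rfl u2)) (mk_node (mk_leaf rfl u1) (mk_leaf rfl (w8_zero _ _).symm))))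
theorem tb (d : ℤ) (n : ℕ)
    (h : ∀ l ∈ ({31, 17, 7, 3} : Finset ℕ), jacobiSym ((n : ℤ) ^ 2 + 4) l = -1) :
    (512 : ℤ) ∣ Pool.Agent.N367.LE.SEr d {31, 17, 7, 3} n -
      256 * (((BT11067 >>> (((n % 31 * 17 + n % 17) * 7 + n % 7) * 3 + n % 3)) % 2 : ℕ) : ℤ) :=
  tb_gen (m := 11067) pd31 pd17 pd7 pd3 (by norm_num) (by norm_num) (by norm_num)
    (by norm_num) (by norm_num) (by norm_num) (show Idem 3 7 17 31 7378 9486 4557 714 from Idem.of (by decide)) (by norm_num) (by norm_num)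
    (by norm_num) (by rw [← tr_eq]; exact ev_true) d n h

end Pool.Agent.N156.HT.D11067
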