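import Pool.Agent.N156.HT.H9
import Pool.Agent.N156.HT.D1155

/-! The sum for 11 7 5 3. -/

namespace Pool.Agent.N156.HT.D1155

open Pool.Agent.N156.HT Pool.Agent.N911.L

theorem u15 : W15 = P (w8 1155 1156) (.cons 210 11 (.cons 330 7 (.cons 231 5 (.cons 385 3 .nil)))) 0 :=
  chkW_sound (by norm_num) (by norm_num) (by norm_num) c15_0
theorem u14 : W14 = P (w8 1155 771) (.cons 210 11 (.cons 330 7 (.cons 231 5 .nil))) 385 :=
  chkW_sound (by norm_num) (by norm_num) (by norm_num) c14_0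
theorem u13 : W13 = P (w8 1155 925) (.cons 210 11 (.cons 330 7 (.cons 385 3 .nil))) 231 :=
  chkW_sound (by norm_num) (by norm_num) (by norm_num) c13_0
theorem u12 : W12 = P (w8 1155 540) (.cons 210 11 (.cons 330 7 .nil)) 616 :=
  chkW_sound (by norm_num) (by norm_num) (by norm_num) c12_0
theorem u11 : W11 = P (w8 1155 826) (.cons 210 11 (.cons 231 5 (.cons 385 3 .nil))) 330 :=
  chkW_sound (by norm_num) (by norm_num) (by norm_num) c11_0
theorem u10 : W10 = P (w8 1155 441) (.cons 210 11 (.cons 231 5 .nil)) 715 :=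
  chkW_sound (by norm_num) (by norm_num) (by norm_num) c10_0
theorem u9 : W9 = P (w8 1155 595) (.cons 210 11 (.cons 385 3 .nil)) 561 :=
  chkW_sound (by norm_num) (by norm_num) (by norm_num) c9_0
theorem u8 : W8 = P (w8 1155 210) (.cons 210 11 .nil) 946 :=
  chkW_sound (by norm_num) (by norm_num) (by norm_num) c8_0
theorem u7 : W7 = P (w8 1155 946) (.cons 330 7 (.cons 231 5 (.cons 385 3 .nil))) 210 :=
  chkW_sound (by norm_num) (by norm_num) (by norm_num) c7_0
theorem u6 : W6 = P (w8 1155 561) (.cons 330 7 (.cons 231 5 .nil)) 595 :=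
  chkW_sound (by norm_num) (by norm_num) (by norm_num) c6_0
theorem u5 : W5 = P (w8 1155 715) (.cons 330 7 (.cons 385 3 .nil)) 441 :=
  chkW_sound (by norm_num) (by norm_num) (by norm_num) c5_0
theorem u4 : W4 = P (w8 1155 330) (.cons 330 7 .nil) 826 :=
  chkW_sound (by norm_num) (by norm_num) (by norm_num) c4_0
theorem u3 : W3 = P (w8 1155 616) (.cons 231 5 (.cons 385 3 .nil)) 540 :=
  chkW_sound (by norm_num) (by norm_num) (by norm_num) c3_0
theorem u2 : W2 = P (w8 1155 231) (.cons 231 5 .nil) 925 :=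
  chkW_sound (by norm_num) (by norm_num) (by norm_num) c2_0
theorem u1 : W1 = P (w8 1155 385) (.cons 385 3 .nil) 771 :=
  chkW_sound (by norm_num) (by norm_num) (by norm_num) c1_0
theorem tr_eq : tr = TR (w8 1155) [(210, 11, 1476, 255), (330, 7, 104, 255), (231, 5, 12, 1), (385, 3, 4, 255)] .nil 0 0 :=
  mk_node (mk_node (mk_node (mk_node (mk_leaf rfl u15) (mk_leaf rfl u14)) (mk_node (mk_leaf rfl u13) (mk_leaf rfl u12))) (mk_node (mk_node (mk_leaf rfl u11) (mk_leaf rfl u10)) (mk_node (mk_leaf rfl u9) (mk_leaf rfl u8)))) (mk_node (mk_node (mk_node (mk_leaf rfl u7) (mk_leaf rfl u6)) (mk_node (mk_leaf rfl u5) (mk_leaf rfl u4))) (mk_node (mk_node (mk_leaf rfl u3) (mk_leaf rfl u2)) (mk_node (mk_leaf rfl u1) (mk_leaf rfl (w8_zero _ _).symm))))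
theorem tb (d : ℤ) (n : ℕ)
    (h : ∀ l ∈ ({11, 7, 5, 3} : Finset ℕ), jacobiSym ((n : ℤ) ^ 2 + 4) l = -1) :
    (512 : ℤ) ∣ Pool.Agent.N367.LE.SEr d {11, 7, 5, 3} n -
      256 * (((BT1155 >>> (((n % 11 * 7 + n % 7) * 5 + n % 5) * 3 + n % 3)) % 2 : ℕ) : ℤ) :=
  tb_gen (m := 1155) pd11 pd7 pd5 pd3 (by norm_num) (by norm_num) (by norm_num)
    (by norm_num) (by norm_num) (by norm_num) (show Idem 3 5 7 11 385 231 330 210 from Idem.of (by decide)) (by norm_num) (by norm_num)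
    (by norm_num) (by rw [← tr_eq]; exact ev_true) d n h

end Pool.Agent.N156.HT.D1155
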