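import Pool.Agent.N156.HT.H9
import Pool.Agent.N156.HT.D11571

/-! The sum for 29 19 7 3. -/

namespace Pool.Agent.N156.HT.D11571

open Pool.Agent.N156.HT Pool.Agent.N911.L

theorem u15 : W15 = P (w8 11571 11572) (.cons 1596 29 (.cons 609 19 (.cons 1653 7 (.cons 7714 3 .nil)))) 0 :=
  chkW_sound (by norm_num) (by norm_num) (by norm_num) c15_0
theorem u14 : W14 = P (w8 11571 3858) (.cons 1596 29 (.cons 609 19 (.cons 1653 7 .nil))) 7714 :=
  chkW_sound (by norm_num) (by norm_num) (by norm_num) c14_0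
theorem u13 : W13 = P (w8 11571 9919) (.cons 1596 29 (.cons 609 19 (.cons 7714 3 .nil))) 1653 :=
  chkW_sound (by norm_num) (by norm_num) (by norm_num) c13_0
theorem u12 : W12 = P (w8 11571 2205) (.cons 1596 29 (.cons 609 19 .nil)) 9367 :=
  chkW_sound (by norm_num) (by norm_num) (by norm_num) c12_0
theorem u11 : W11 = P (w8 11571 10963) (.cons 1596 29 (.cons 1653 7 (.cons 7714 3 .nil))) 609 :=
  chkW_sound (by norm_num) (by norm_num) (by norm_num) c11_0
theorem u10 : W10 = P (w8 11571 3249) (.cons 1596 29 (.cons 1653 7 .nil)) 8323 :=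
  chkW_sound (by norm_num) (by norm_num) (by norm_num) c10_0
theorem u9 : W9 = P (w8 11571 9310) (.cons 1596 29 (.cons 7714 3 .nil)) 2262 :=
  chkW_sound (by norm_num) (by norm_num) (by norm_num) c9_0
theorem u8 : W8 = P (w8 11571 1596) (.cons 1596 29 .nil) 9976 :=
  chkW_sound (by norm_num) (by norm_num) (by norm_num) c8_0
theorem u7 : W7 = P (w8 11571 9976) (.cons 609 19 (.cons 1653 7 (.cons 7714 3 .nil))) 1596 :=
  chkW_sound (by norm_num) (by norm_num) (by norm_num) c7_0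
theorem u6 : W6 = P (w8 11571 2262) (.cons 609 19 (.cons 1653 7 .nil)) 9310 :=
  chkW_sound (by norm_num) (by norm_num) (by norm_num) c6_0
theorem u5 : W5 = P (w8 11571 8323) (.cons 609 19 (.cons 7714 3 .nil)) 3249 :=
  chkW_sound (by norm_num) (by norm_num) (by norm_num) c5_0
theorem u4 : W4 = P (w8 11571 609) (.cons 609 19 .nil) 10963 :=
  chkW_sound (by norm_num) (by norm_num) (by norm_num) c4_0
theorem u3 : W3 = P (w8 11571 9367) (.cons 1653 7 (.cons 7714 3 .nil)) 2205 :=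
  chkW_sound (by norm_num) (by norm_num) (by norm_num) c3_0
theorem u2 : W2 = P (w8 11571 1653) (.cons 1653 7 .nil) 9919 :=
  chkW_sound (by norm_num) (by norm_num) (by norm_num) c2_0
theorem u1 : W1 = P (w8 11571 7714) (.cons 7714 3 .nil) 3858 :=
  chkW_sound (by norm_num) (by norm_num) (by norm_num) c1_0
theorem tr_eq : tr = TR (w8 11571) [(1596, 29, 204397836, 1), (609, 19, 324876, 255), (1653, 7, 104, 255), (7714, 3, 4, 255)] .nil 0 0 :=
  mk_node (mk_node (mk_node (mk_node (mk_leaf rfl u15) (mk_leaf rfl u14)) (mk_node (mk_leaf rfl u13) (mk_leaf rfl u12))) (mk_node (mk_node (mk_leaf rfl u11) (mk_leaf rfl u10)) (mk_node (mk_leaf rfl u9) (mk_leaf rfl u8)))) (mk_node (mk_node (mk_node (mk_leaf rfl u7) (mk_leaf rfl u6)) (mk_node (mk_leaf rfl u5) (mk_leaf rfl u4))) (mk_node (mk_node (mk_leaf rfl u3) (mk_leaf rfl u2)) (mk_node (mk_leaf rfl u1) (mk_leaf rfl (w8_zero _ _).symm))))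
theorem tb (d : ℤ) (n : ℕ)
    (h : ∀ l ∈ ({29, 19, 7, 3} : Finset ℕ), jacobiSym ((n : ℤ) ^ 2 + 4) l = -1) :
    (512 : ℤ) ∣ Pool.Agent.N367.LE.SEr d {29, 19, 7, 3} n -
      256 * (((BT11571 >>> (((n % 29 * 19 + n % 19) * 7 + n % 7) * 3 + n % 3)) % 2 : ℕ) : ℤ) :=
  tb_gen (m := 11571) pd29 pd19 pd7 pd3 (by norm_num) (by norm_num) (by norm_num)
    (by norm_num) (by norm_num) (by norm_num) (show Idem 3 7 19 29 7714 1653 609 1596 from Idem.of (by decide)) (by norm_num) (by norm_num)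
    (by norm_num) (by rw [← tr_eq]; exact ev_true) d n h

end Pool.Agent.N156.HT.D11571
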