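import Pool.Agent.N156.HT.H9
import Pool.Agent.N156.HT.D12903

/-! The sum for 23 17 11 3. -/

namespace Pool.Agent.N156.HT.D12903

open Pool.Agent.N156.HT Pool.Agent.N911.L

set_option exponentiation.threshold 2000000

theorem u15 : W15 = P (w8 12903 38710) (.cons 10098 23 (.cons 10626 17 (.cons 9384 11 (.cons 8602 3 .nil)))) 0 :=
  by
  unfold W15
  exact @P_join (w8 12903 38710) 10098 12 (11) 0 121176 296208 (.cons 10626 17 (.cons 9384 11 (.cons 8602 3 .nil))) W15c0 (W15c1)
    (chkW_sound (by norm_num) (by norm_num) (by norm_num) c15_0)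
    (chkW_sound (by norm_num) (by norm_num) (by norm_num) c15_1) (by norm_num) rfl
theorem u14 : W14 = P (w8 12903 30108) (.cons 10098 23 (.cons 10626 17 (.cons 9384 11 .nil))) 8602 :=
  chkW_sound (by norm_num) (by norm_num) (by norm_num) c14_0
theorem u13 : W13 = P (w8 12903 29326) (.cons 10098 23 (.cons 10626 17 (.cons 8602 3 .nil))) 9384 :=
  chkW_sound (by norm_num) (by norm_num) (by norm_num) c13_0
theorem u12 : W12 = P (w8 12903 20724) (.cons 10098 23 (.cons 10626 17 .nil)) 17986 :=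
  chkW_sound (by norm_num) (by norm_num) (by norm_num) c12_0
theorem u11 : W11 = P (w8 12903 28084) (.cons 10098 23 (.cons 9384 11 (.cons 8602 3 .nil))) 10626 :=
  chkW_sound (by norm_num) (by norm_num) (by norm_num) c11_0
theorem u10 : W10 = P (w8 12903 19482) (.cons 10098 23 (.cons 9384 11 .nil)) 19228 :=
  chkW_sound (by norm_num) (by norm_num) (by norm_num) c10_0
theorem u9 : W9 = P (w8 12903 18700) (.cons 10098 23 (.cons 8602 3 .nil)) 20010 :=
  chkW_sound (by norm_num) (by norm_num) (by norm_num) c9_0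
theorem u8 : W8 = P (w8 12903 10098) (.cons 10098 23 .nil) 28612 :=
  chkW_sound (by norm_num) (by norm_num) (by norm_num) c8_0
theorem u7 : W7 = P (w8 12903 28612) (.cons 10626 17 (.cons 9384 11 (.cons 8602 3 .nil))) 10098 :=
  chkW_sound (by norm_num) (by norm_num) (by norm_num) c7_0
theorem u6 : W6 = P (w8 12903 20010) (.cons 10626 17 (.cons 9384 11 .nil)) 18700 :=
  chkW_sound (by norm_num) (by norm_num) (by norm_num) c6_0
theorem u5 : W5 = P (w8 12903 19228) (.cons 10626 17 (.cons 8602 3 .nil)) 19482 :=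
  chkW_sound (by norm_num) (by norm_num) (by norm_num) c5_0
theorem u4 : W4 = P (w8 12903 10626) (.cons 10626 17 .nil) 28084 :=
  chkW_sound (by norm_num) (by norm_num) (by norm_num) c4_0
theorem u3 : W3 = P (w8 12903 17986) (.cons 9384 11 (.cons 8602 3 .nil)) 20724 :=
  chkW_sound (by norm_num) (by norm_num) (by norm_num) c3_0
theorem u2 : W2 = P (w8 12903 9384) (.cons 9384 11 .nil) 29326 :=
  chkW_sound (by norm_num) (by norm_num) (by norm_num) c2_0
theorem u1 : W1 = P (w8 12903 8602) (.cons 8602 3 .nil) 30108 :=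
  chkW_sound (by norm_num) (by norm_num) (by norm_num) c1_0
theorem tr_eq : tr = TR (w8 12903) [(10098, 23, 8047776, 255), (10626, 17, 23784, 1), (9384, 11, 1476, 255), (8602, 3, 4, 255)] .nil 0 0 :=
  mk_node (mk_node (mk_node (mk_node (mk_leaf rfl u15) (mk_leaf rfl u14)) (mk_node (mk_leaf rfl u13) (mk_leaf rfl u12))) (mk_node (mk_node (mk_leaf rfl u11) (mk_leaf rfl u10)) (mk_node (mk_leaf rfl u9) (mk_leaf rfl u8)))) (mk_node (mk_node (mk_node (mk_leaf rfl u7) (mk_leaf rfl u6)) (mk_node (mk_leaf rfl u5) (mk_leaf rfl u4))) (mk_node (mk_node (mk_leaf rfl u3) (mk_leaf rfl u2)) (mk_node (mk_leaf rfl u1) (mk_leaf rfl (w8_zero _ _).symm))))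
theorem tb (d : ℤ) (n : ℕ)
    (h : ∀ l ∈ ({23, 17, 11, 3} : Finset ℕ), jacobiSym ((n : ℤ) ^ 2 + 4) l = -1) :
    (512 : ℤ) ∣ Pool.Agent.N367.LE.SEr d {23, 17, 11, 3} n -
      256 * (((BT12903 >>> (((n % 23 * 17 + n % 17) * 11 + n % 11) * 3 + n % 3)) % 2 : ℕ) : ℤ) :=
  tb_gen (m := 12903) pd23 pd17 pd11 pd3 (by norm_num) (by norm_num) (by norm_num)
    (by norm_num) (by norm_num) (by norm_num) (show Idem 3 11 17 23 8602 9384 10626 10098 from Idem.of (by decide)) (by norm_num) (by norm_num)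
    (by norm_num) (by rw [← tr_eq]; exact ev_true) d n h

end Pool.Agent.N156.HT.D12903
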