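import Pool.Agent.N156.HT.H9
import Pool.Agent.N156.HT.D13299

/-! The sum for 31 13 11 3. -/

namespace Pool.Agent.N156.HT.D13299

open Pool.Agent.N156.HT Pool.Agent.N911.L

set_option exponentiation.threshold 2000000

theorem u15 : W15 = P (w8 13299 26599) (.cons 2574 31 (.cons 3069 13 (.cons 12090 11 (.cons 8866 3 .nil)))) 0 :=
  by
  unfold W15
  exact @P_join (w8 13299 26599) 2574 16 (15) 0 41184 302016 (.cons 3069 13 (.cons 12090 11 (.cons 8866 3 .nil))) W15c0 (W15c1)
    (chkW_sound (by norm_num) (by norm_num) (by norm_num) c15_0)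
    (chkW_sound (by norm_num) (by norm_num) (by norm_num) c15_1) (by norm_num) rfl
theorem u14 : W14 = P (w8 13299 17733) (.cons 2574 31 (.cons 3069 13 (.cons 12090 11 .nil))) 8866 :=
  chkW_sound (by norm_num) (by norm_num) (by norm_num) c14_0
theorem u13 : W13 = P (w8 13299 14509) (.cons 2574 31 (.cons 3069 13 (.cons 8866 3 .nil))) 12090 :=
  chkW_sound (by norm_num) (by norm_num) (by norm_num) c13_0
theorem u12 : W12 = P (w8 13299 5643) (.cons 2574 31 (.cons 3069 13 .nil)) 20956 :=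
  chkW_sound (by norm_num) (by norm_num) (by norm_num) c12_0
theorem u11 : W11 = P (w8 13299 23530) (.cons 2574 31 (.cons 12090 11 (.cons 8866 3 .nil))) 3069 :=
  chkW_sound (by norm_num) (by norm_num) (by norm_num) c11_0
theorem u10 : W10 = P (w8 13299 14664) (.cons 2574 31 (.cons 12090 11 .nil)) 11935 :=
  chkW_sound (by norm_num) (by norm_num) (by norm_num) c10_0
theorem u9 : W9 = P (w8 13299 11440) (.cons 2574 31 (.cons 8866 3 .nil)) 15159 :=
  chkW_sound (by norm_num) (by norm_num) (by norm_num) c9_0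
theorem u8 : W8 = P (w8 13299 2574) (.cons 2574 31 .nil) 24025 :=
  chkW_sound (by norm_num) (by norm_num) (by norm_num) c8_0
theorem u7 : W7 = P (w8 13299 24025) (.cons 3069 13 (.cons 12090 11 (.cons 8866 3 .nil))) 2574 :=
  chkW_sound (by norm_num) (by norm_num) (by norm_num) c7_0
theorem u6 : W6 = P (w8 13299 15159) (.cons 3069 13 (.cons 12090 11 .nil)) 11440 :=
  chkW_sound (by norm_num) (by norm_num) (by norm_num) c6_0
theorem u5 : W5 = P (w8 13299 11935) (.cons 3069 13 (.cons 8866 3 .nil)) 14664 :=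
  chkW_sound (by norm_num) (by norm_num) (by norm_num) c5_0
theorem u4 : W4 = P (w8 13299 3069) (.cons 3069 13 .nil) 23530 :=
  chkW_sound (by norm_num) (by norm_num) (by norm_num) c4_0
theorem u3 : W3 = P (w8 13299 20956) (.cons 12090 11 (.cons 8866 3 .nil)) 5643 :=
  chkW_sound (by norm_num) (by norm_num) (by norm_num) c3_0
theorem u2 : W2 = P (w8 13299 12090) (.cons 12090 11 .nil) 14509 :=
  chkW_sound (by norm_num) (by norm_num) (by norm_num) c2_0
theorem u1 : W1 = P (w8 13299 8866) (.cons 8866 3 .nil) 17733 :=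
  chkW_sound (by norm_num) (by norm_num) (by norm_num) c1_0
theorem tr_eq : tr = TR (w8 13299) [(2574, 31, 1843574856, 255), (3069, 13, 2532, 1), (12090, 11, 1476, 255), (8866, 3, 4, 255)] .nil 0 0 :=
  mk_node (mk_node (mk_node (mk_node (mk_leaf rfl u15) (mk_leaf rfl u14)) (mk_node (mk_leaf rfl u13) (mk_leaf rfl u12))) (mk_node (mk_node (mk_leaf rfl u11) (mk_leaf rfl u10)) (mk_node (mk_leaf rfl u9) (mk_leaf rfl u8)))) (mk_node (mk_node (mk_node (mk_leaf rfl u7) (mk_leaf rfl u6)) (mk_node (mk_leaf rfl u5) (mk_leaf rfl u4))) (mk_node (mk_node (mk_leaf rfl u3) (mk_leaf rfl u2)) (mk_node (mk_leaf rfl u1) (mk_leaf rfl (w8_zero _ _).symm))))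
theorem tb (d : ℤ) (n : ℕ)
    (h : ∀ l ∈ ({31, 13, 11, 3} : Finset ℕ), jacobiSym ((n : ℤ) ^ 2 + 4) l = -1) :
    (512 : ℤ) ∣ Pool.Agent.N367.LE.SEr d {31, 13, 11, 3} n -
      256 * (((BT13299 >>> (((n % 31 * 13 + n % 13) * 11 + n % 11) * 3 + n % 3)) % 2 : ℕ) : ℤ) :=
  tb_gen (m := 13299) pd31 pd13 pd11 pd3 (by norm_num) (by norm_num) (by norm_num)
    (by norm_num) (by norm_num) (by norm_num) (show Idem 3 11 13 31 8866 12090 3069 2574 from Idem.of (by decide)) (by norm_num) (by norm_num)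
    (by norm_num) (by rw [← tr_eq]; exact ev_true) d n h

end Pool.Agent.N156.HT.D13299
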