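import Pool.Agent.N156.HT.H9
import Pool.Agent.N156.HT.D14007

/-! The sum for 29 23 7 3. -/

namespace Pool.Agent.N156.HT.D14007

open Pool.Agent.N156.HT Pool.Agent.N911.L

set_option exponentiation.threshold 2000000

theorem u15 : W15 = P (w8 14007 42022) (.cons 12558 29 (.cons 12789 23 (.cons 12006 7 (.cons 4669 3 .nil)))) 0 :=
  by
  unfold W15
  exact @P_join (w8 14007 42022) 12558 15 (14) 0 188370 318780 (.cons 12789 23 (.cons 12006 7 (.cons 4669 3 .nil))) W15c0 (W15c1)
    (chkW_sound (by norm_num) (by norm_num) (by norm_num) c15_0)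
    (chkW_sound (by norm_num) (by norm_num) (by norm_num) c15_1) (by norm_num) rfl
theorem u14 : W14 = P (w8 14007 37353) (.cons 12558 29 (.cons 12789 23 (.cons 12006 7 .nil))) 4669 :=
  chkW_sound (by norm_num) (by norm_num) (by norm_num) c14_0
theorem u13 : W13 = P (w8 14007 30016) (.cons 12558 29 (.cons 12789 23 (.cons 4669 3 .nil))) 12006 :=
  chkW_sound (by norm_num) (by norm_num) (by norm_num) c13_0
theorem u12 : W12 = P (w8 14007 25347) (.cons 12558 29 (.cons 12789 23 .nil)) 16675 :=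
  chkW_sound (by norm_num) (by norm_num) (by norm_num) c12_0
theorem u11 : W11 = P (w8 14007 29233) (.cons 12558 29 (.cons 12006 7 (.cons 4669 3 .nil))) 12789 :=
  chkW_sound (by norm_num) (by norm_num) (by norm_num) c11_0
theorem u10 : W10 = P (w8 14007 24564) (.cons 12558 29 (.cons 12006 7 .nil)) 17458 :=
  chkW_sound (by norm_num) (by norm_num) (by norm_num) c10_0
theorem u9 : W9 = P (w8 14007 17227) (.cons 12558 29 (.cons 4669 3 .nil)) 24795 :=
  chkW_sound (by norm_num) (by norm_num) (by norm_num) c9_0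
theorem u8 : W8 = P (w8 14007 12558) (.cons 12558 29 .nil) 29464 :=
  chkW_sound (by norm_num) (by norm_num) (by norm_num) c8_0
theorem u7 : W7 = P (w8 14007 29464) (.cons 12789 23 (.cons 12006 7 (.cons 4669 3 .nil))) 12558 :=
  chkW_sound (by norm_num) (by norm_num) (by norm_num) c7_0
theorem u6 : W6 = P (w8 14007 24795) (.cons 12789 23 (.cons 12006 7 .nil)) 17227 :=
  chkW_sound (by norm_num) (by norm_num) (by norm_num) c6_0
theorem u5 : W5 = P (w8 14007 17458) (.cons 12789 23 (.cons 4669 3 .nil)) 24564 :=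
  chkW_sound (by norm_num) (by norm_num) (by norm_num) c5_0
theorem u4 : W4 = P (w8 14007 12789) (.cons 12789 23 .nil) 29233 :=
  chkW_sound (by norm_num) (by norm_num) (by norm_num) c4_0
theorem u3 : W3 = P (w8 14007 16675) (.cons 12006 7 (.cons 4669 3 .nil)) 25347 :=
  chkW_sound (by norm_num) (by norm_num) (by norm_num) c3_0
theorem u2 : W2 = P (w8 14007 12006) (.cons 12006 7 .nil) 30016 :=
  chkW_sound (by norm_num) (by norm_num) (by norm_num) c2_0
theorem u1 : W1 = P (w8 14007 4669) (.cons 4669 3 .nil) 37353 :=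
  chkW_sound (by norm_num) (by norm_num) (by norm_num) c1_0
theorem tr_eq : tr = TR (w8 14007) [(12558, 29, 204397836, 1), (12789, 23, 8047776, 255), (12006, 7, 104, 255), (4669, 3, 4, 255)] .nil 0 0 :=
  mk_node (mk_node (mk_node (mk_node (mk_leaf rfl u15) (mk_leaf rfl u14)) (mk_node (mk_leaf rfl u13) (mk_leaf rfl u12))) (mk_node (mk_node (mk_leaf rfl u11) (mk_leaf rfl u10)) (mk_node (mk_leaf rfl u9) (mk_leaf rfl u8)))) (mk_node (mk_node (mk_node (mk_leaf rfl u7) (mk_leaf rfl u6)) (mk_node (mk_leaf rfl u5) (mk_leaf rfl u4))) (mk_node (mk_node (mk_leaf rfl u3) (mk_leaf rfl u2)) (mk_node (mk_leaf rfl u1) (mk_leaf rfl (w8_zero _ _).symm))))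
theorem tb (d : ℤ) (n : ℕ)
    (h : ∀ l ∈ ({29, 23, 7, 3} : Finset ℕ), jacobiSym ((n : ℤ) ^ 2 + 4) l = -1) :
    (512 : ℤ) ∣ Pool.Agent.N367.LE.SEr d {29, 23, 7, 3} n -
      256 * (((BT14007 >>> (((n % 29 * 23 + n % 23) * 7 + n % 7) * 3 + n % 3)) % 2 : ℕ) : ℤ) :=
  tb_gen (m := 14007) pd29 pd23 pd7 pd3 (by norm_num) (by norm_num) (by norm_num)
    (by norm_num) (by norm_num) (by norm_num) (show Idem 3 7 23 29 4669 12006 12789 12558 from Idem.of (by decide)) (by norm_num) (by norm_num)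
    (by norm_num) (by rw [← tr_eq]; exact ev_true) d n h

end Pool.Agent.N156.HT.D14007
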