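import Pool.Agent.N156.HT.H9
import Pool.Agent.N156.HT.D19019

/-! The sum for 19 13 11 7. -/

namespace Pool.Agent.N156.HT.D19019

open Pool.Agent.N156.HT Pool.Agent.N911.L

set_option exponentiation.threshold 2000000

theorem u15 : W15 = P (w8 19019 19020) (.cons 3003 19 (.cons 2926 13 (.cons 10374 11 (.cons 2717 7 .nil)))) 0 :=
  by
  unfold W15
  exact @P_join (w8 19019 19020) 3003 5 (5 + (5 + (4))) 0 15015 220220 (.cons 2926 13 (.cons 10374 11 (.cons 2717 7 .nil))) W15c0 (Nat.add W15c1 (Nat.mul (Nat.pow 2 220220) (Nat.add W15c2 (Nat.mul (Nat.pow 2 220220) (W15c3)))))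
    (chkW_sound (by norm_num) (by norm_num) (by norm_num) c15_0)
    (@P_join (w8 19019 19020) 3003 5 (5 + (4)) 15015 30030 220220 (.cons 2926 13 (.cons 10374 11 (.cons 2717 7 .nil))) W15c1 (Nat.add W15c2 (Nat.mul (Nat.pow 2 220220) (W15c3)))
    (chkW_sound (by norm_num) (by norm_num) (by norm_num) c15_1)
    (@P_join (w8 19019 19020) 3003 5 (4) 30030 45045 220220 (.cons 2926 13 (.cons 10374 11 (.cons 2717 7 .nil))) W15c2 (W15c3)
    (chkW_sound (by norm_num) (by norm_num) (by norm_num) c15_2)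
    (chkW_sound (by norm_num) (by norm_num) (by norm_num) c15_3) (by norm_num) rfl) (by norm_num) rfl) (by norm_num) rfl
theorem u14 : W14 = P (w8 19019 16303) (.cons 3003 19 (.cons 2926 13 (.cons 10374 11 .nil))) 2717 :=
  chkW_sound (by norm_num) (by norm_num) (by norm_num) c14_0
theorem u13 : W13 = P (w8 19019 8646) (.cons 3003 19 (.cons 2926 13 (.cons 2717 7 .nil))) 10374 :=
  chkW_sound (by norm_num) (by norm_num) (by norm_num) c13_0
theorem u12 : W12 = P (w8 19019 5929) (.cons 3003 19 (.cons 2926 13 .nil)) 13091 :=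
  chkW_sound (by norm_num) (by norm_num) (by norm_num) c12_0
theorem u11 : W11 = P (w8 19019 16094) (.cons 3003 19 (.cons 10374 11 (.cons 2717 7 .nil))) 2926 :=
  chkW_sound (by norm_num) (by norm_num) (by norm_num) c11_0
theorem u10 : W10 = P (w8 19019 13377) (.cons 3003 19 (.cons 10374 11 .nil)) 5643 :=
  chkW_sound (by norm_num) (by norm_num) (by norm_num) c10_0
theorem u9 : W9 = P (w8 19019 5720) (.cons 3003 19 (.cons 2717 7 .nil)) 13300 :=
  chkW_sound (by norm_num) (by norm_num) (by norm_num) c9_0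
theorem u8 : W8 = P (w8 19019 3003) (.cons 3003 19 .nil) 16017 :=
  chkW_sound (by norm_num) (by norm_num) (by norm_num) c8_0
theorem u7 : W7 = P (w8 19019 16017) (.cons 2926 13 (.cons 10374 11 (.cons 2717 7 .nil))) 3003 :=
  chkW_sound (by norm_num) (by norm_num) (by norm_num) c7_0
theorem u6 : W6 = P (w8 19019 13300) (.cons 2926 13 (.cons 10374 11 .nil)) 5720 :=
  chkW_sound (by norm_num) (by norm_num) (by norm_num) c6_0
theorem u5 : W5 = P (w8 19019 5643) (.cons 2926 13 (.cons 2717 7 .nil)) 13377 :=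
  chkW_sound (by norm_num) (by norm_num) (by norm_num) c5_0
theorem u4 : W4 = P (w8 19019 2926) (.cons 2926 13 .nil) 16094 :=
  chkW_sound (by norm_num) (by norm_num) (by norm_num) c4_0
theorem u3 : W3 = P (w8 19019 13091) (.cons 10374 11 (.cons 2717 7 .nil)) 5929 :=
  chkW_sound (by norm_num) (by norm_num) (by norm_num) c3_0
theorem u2 : W2 = P (w8 19019 10374) (.cons 10374 11 .nil) 8646 :=
  chkW_sound (by norm_num) (by norm_num) (by norm_num) c2_0
theorem u1 : W1 = P (w8 19019 2717) (.cons 2717 7 .nil) 16303 :=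
  chkW_sound (by norm_num) (by norm_num) (by norm_num) c1_0
theorem tr_eq : tr = TR (w8 19019) [(3003, 19, 324876, 255), (2926, 13, 2532, 1), (10374, 11, 1476, 255), (2717, 7, 104, 255)] .nil 0 0 :=
  mk_node (mk_node (mk_node (mk_node (mk_leaf rfl u15) (mk_leaf rfl u14)) (mk_node (mk_leaf rfl u13) (mk_leaf rfl u12))) (mk_node (mk_node (mk_leaf rfl u11) (mk_leaf rfl u10)) (mk_node (mk_leaf rfl u9) (mk_leaf rfl u8)))) (mk_node (mk_node (mk_node (mk_leaf rfl u7) (mk_leaf rfl u6)) (mk_node (mk_leaf rfl u5) (mk_leaf rfl u4))) (mk_node (mk_node (mk_leaf rfl u3) (mk_leaf rfl u2)) (mk_node (mk_leaf rfl u1) (mk_leaf rfl (w8_zero _ _).symm))))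
theorem tb (d : ℤ) (n : ℕ)
    (h : ∀ l ∈ ({19, 13, 11, 7} : Finset ℕ), jacobiSym ((n : ℤ) ^ 2 + 4) l = -1) :
    (512 : ℤ) ∣ Pool.Agent.N367.LE.SEr d {19, 13, 11, 7} n -
      256 * (((BT19019 >>> (((n % 19 * 13 + n % 13) * 11 + n % 11) * 7 + n % 7)) % 2 : ℕ) : ℤ) :=
  tb_gen (m := 19019) pd19 pd13 pd11 pd7 (by norm_num) (by norm_num) (by norm_num)
    (by norm_num) (by norm_num) (by norm_num) (show Idem 7 11 13 19 2717 10374 2926 3003 from Idem.of (by decide)) (by norm_num) (by norm_num)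
    (by norm_num) (by rw [← tr_eq]; exact ev_true) d n h

end Pool.Agent.N156.HT.D19019
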