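import Pool.Agent.N156.HT.H9
import Pool.Agent.N156.HT.D22011

/-! The sum for 29 23 11 3. -/

namespace Pool.Agent.N156.HT.D22011

open Pool.Agent.N156.HT Pool.Agent.N911.L

set_option exponentiation.threshold 2000000

theorem u15 : W15 = P (w8 22011 44023) (.cons 4554 29 (.cons 4785 23 (.cons 20010 11 (.cons 14674 3 .nil)))) 0 :=
  by
  unfold W15
  exact @P_join (w8 22011 44023) 4554 8 (8 + (8 + (5))) 0 36432 267168 (.cons 4785 23 (.cons 20010 11 (.cons 14674 3 .nil))) W15c0 (Nat.add W15c1 (Nat.mul (Nat.pow 2 267168) (Nat.add W15c2 (Nat.mul (Nat.pow 2 267168) (W15c3)))))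
    (chkW_sound (by norm_num) (by norm_num) (by norm_num) c15_0)
    (@P_join (w8 22011 44023) 4554 8 (8 + (5)) 36432 72864 267168 (.cons 4785 23 (.cons 20010 11 (.cons 14674 3 .nil))) W15c1 (Nat.add W15c2 (Nat.mul (Nat.pow 2 267168) (W15c3)))
    (chkW_sound (by norm_num) (by norm_num) (by norm_num) c15_1)
    (@P_join (w8 22011 44023) 4554 8 (5) 72864 109296 267168 (.cons 4785 23 (.cons 20010 11 (.cons 14674 3 .nil))) W15c2 (W15c3)
    (chkW_sound (by norm_num) (by norm_num) (by norm_num) c15_2)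
    (chkW_sound (by norm_num) (by norm_num) (by norm_num) c15_3) (by norm_num) rfl) (by norm_num) rfl) (by norm_num) rfl
theorem u14 : W14 = P (w8 22011 29349) (.cons 4554 29 (.cons 4785 23 (.cons 20010 11 .nil))) 14674 :=
  by
  unfold W14
  exact @P_join (w8 22011 29349) 4554 15 (14) 14674 82984 166980 (.cons 4785 23 (.cons 20010 11 .nil)) W14c0 (W14c1)
    (chkW_sound (by norm_num) (by norm_num) (by norm_num) c14_0)
    (chkW_sound (by norm_num) (by norm_num) (by norm_num) c14_1) (by norm_num) rfl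
theorem u13 : W13 = P (w8 22011 24013) (.cons 4554 29 (.cons 4785 23 (.cons 14674 3 .nil))) 20010 :=
  chkW_sound (by norm_num) (by norm_num) (by norm_num) c13_0
theorem u12 : W12 = P (w8 22011 9339) (.cons 4554 29 (.cons 4785 23 .nil)) 34684 :=
  chkW_sound (by norm_num) (by norm_num) (by norm_num) c12_0
theorem u11 : W11 = P (w8 22011 39238) (.cons 4554 29 (.cons 20010 11 (.cons 14674 3 .nil))) 4785 :=
  chkW_sound (by norm_num) (by norm_num) (by norm_num) c11_0
theorem u10 : W10 = P (w8 22011 24564) (.cons 4554 29 (.cons 20010 11 .nil)) 19459 :=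
  chkW_sound (by norm_num) (by norm_num) (by norm_num) c10_0
theorem u9 : W9 = P (w8 22011 19228) (.cons 4554 29 (.cons 14674 3 .nil)) 24795 :=
  chkW_sound (by norm_num) (by norm_num) (by norm_num) c9_0
theorem u8 : W8 = P (w8 22011 4554) (.cons 4554 29 .nil) 39469 :=
  chkW_sound (by norm_num) (by norm_num) (by norm_num) c8_0
theorem u7 : W7 = P (w8 22011 39469) (.cons 4785 23 (.cons 20010 11 (.cons 14674 3 .nil))) 4554 :=
  chkW_sound (by norm_num) (by norm_num) (by norm_num) c7_0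
theorem u6 : W6 = P (w8 22011 24795) (.cons 4785 23 (.cons 20010 11 .nil)) 19228 :=
  chkW_sound (by norm_num) (by norm_num) (by norm_num) c6_0
theorem u5 : W5 = P (w8 22011 19459) (.cons 4785 23 (.cons 14674 3 .nil)) 24564 :=
  chkW_sound (by norm_num) (by norm_num) (by norm_num) c5_0
theorem u4 : W4 = P (w8 22011 4785) (.cons 4785 23 .nil) 39238 :=
  chkW_sound (by norm_num) (by norm_num) (by norm_num) c4_0
theorem u3 : W3 = P (w8 22011 34684) (.cons 20010 11 (.cons 14674 3 .nil)) 9339 :=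
  chkW_sound (by norm_num) (by norm_num) (by norm_num) c3_0
theorem u2 : W2 = P (w8 22011 20010) (.cons 20010 11 .nil) 24013 :=
  chkW_sound (by norm_num) (by norm_num) (by norm_num) c2_0
theorem u1 : W1 = P (w8 22011 14674) (.cons 14674 3 .nil) 29349 :=
  chkW_sound (by norm_num) (by norm_num) (by norm_num) c1_0
theorem tr_eq : tr = TR (w8 22011) [(4554, 29, 204397836, 1), (4785, 23, 8047776, 255), (20010, 11, 1476, 255), (14674, 3, 4, 255)] .nil 0 0 :=
  mk_node (mk_node (mk_node (mk_node (mk_leaf rfl u15) (mk_leaf rfl u14)) (mk_node (mk_leaf rfl u13) (mk_leaf rfl u12))) (mk_node (mk_node (mk_leaf rfl u11) (mk_leaf rfl u10)) (mk_node (mk_leaf rfl u9) (mk_leaf rfl u8)))) (mk_node (mk_node (mk_node (mk_leaf rfl u7) (mk_leaf rfl u6)) (mk_node (mk_leaf rfl u5) (mk_leaf rfl u4))) (mk_node (mk_node (mk_leaf rfl u3) (mk_leaf rfl u2)) (mk_node (mk_leaf rfl u1) (mk_leaf rfl (w8_zero _ _).symm))))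
theorem tb (d : ℤ) (n : ℕ)
    (h : ∀ l ∈ ({29, 23, 11, 3} : Finset ℕ), jacobiSym ((n : ℤ) ^ 2 + 4) l = -1) :
    (512 : ℤ) ∣ Pool.Agent.N367.LE.SEr d {29, 23, 11, 3} n -
      256 * (((BT22011 >>> (((n % 29 * 23 + n % 23) * 11 + n % 11) * 3 + n % 3)) % 2 : ℕ) : ℤ) :=
  tb_gen (m := 22011) pd29 pd23 pd11 pd3 (by norm_num) (by norm_num) (by norm_num)
    (by norm_num) (by norm_num) (by norm_num) (show Idem 3 11 23 29 14674 20010 4785 4554 from Idem.of (by decide)) (by norm_num) (by norm_num)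
    (by norm_num) (by rw [← tr_eq]; exact ev_true) d n h

end Pool.Agent.N156.HT.D22011
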