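import Pool.Agent.N156.HT.H9
import Pool.Agent.N156.HT.D22287

/-! The sum for 23 19 17 3. -/

namespace Pool.Agent.N156.HT.D22287

open Pool.Agent.N156.HT Pool.Agent.N911.L

set_option exponentiation.threshold 2000000

theorem u15 : W15 = P (w8 22287 44575) (.cons 7752 23 (.cons 17595 19 (.cons 11799 17 (.cons 7429 3 .nil)))) 0 :=
  by
  unfold W15
  exact @P_join (w8 22287 44575) 7752 6 (6 + (6 + (5))) 0 46512 255816 (.cons 17595 19 (.cons 11799 17 (.cons 7429 3 .nil))) W15c0 (Nat.add W15c1 (Nat.mul (Nat.pow 2 255816) (Nat.add W15c2 (Nat.mul (Nat.pow 2 255816) (W15c3)))))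
    (chkW_sound (by norm_num) (by norm_num) (by norm_num) c15_0)
    (@P_join (w8 22287 44575) 7752 6 (6 + (5)) 46512 93024 255816 (.cons 17595 19 (.cons 11799 17 (.cons 7429 3 .nil))) W15c1 (Nat.add W15c2 (Nat.mul (Nat.pow 2 255816) (W15c3)))
    (chkW_sound (by norm_num) (by norm_num) (by norm_num) c15_1)
    (@P_join (w8 22287 44575) 7752 6 (5) 93024 139536 255816 (.cons 17595 19 (.cons 11799 17 (.cons 7429 3 .nil))) W15c2 (W15c3)
    (chkW_sound (by norm_num) (by norm_num) (by norm_num) c15_2)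
    (chkW_sound (by norm_num) (by norm_num) (by norm_num) c15_3) (by norm_num) rfl) (by norm_num) rfl) (by norm_num) rfl
theorem u14 : W14 = P (w8 22287 37146) (.cons 7752 23 (.cons 17595 19 (.cons 11799 17 .nil))) 7429 :=
  by
  unfold W14
  exact @P_join (w8 22287 37146) 7752 12 (11) 7429 100453 170544 (.cons 17595 19 (.cons 11799 17 .nil)) W14c0 (W14c1)
    (chkW_sound (by norm_num) (by norm_num) (by norm_num) c14_0)
    (chkW_sound (by norm_num) (by norm_num) (by norm_num) c14_1) (by norm_num) rfl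
theorem u13 : W13 = P (w8 22287 32776) (.cons 7752 23 (.cons 17595 19 (.cons 7429 3 .nil))) 11799 :=
  chkW_sound (by norm_num) (by norm_num) (by norm_num) c13_0
theorem u12 : W12 = P (w8 22287 25347) (.cons 7752 23 (.cons 17595 19 .nil)) 19228 :=
  chkW_sound (by norm_num) (by norm_num) (by norm_num) c12_0
theorem u11 : W11 = P (w8 22287 26980) (.cons 7752 23 (.cons 11799 17 (.cons 7429 3 .nil))) 17595 :=
  chkW_sound (by norm_num) (by norm_num) (by norm_num) c11_0
theorem u10 : W10 = P (w8 22287 19551) (.cons 7752 23 (.cons 11799 17 .nil)) 25024 :=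
  chkW_sound (by norm_num) (by norm_num) (by norm_num) c10_0
theorem u9 : W9 = P (w8 22287 15181) (.cons 7752 23 (.cons 7429 3 .nil)) 29394 :=
  chkW_sound (by norm_num) (by norm_num) (by norm_num) c9_0
theorem u8 : W8 = P (w8 22287 7752) (.cons 7752 23 .nil) 36823 :=
  chkW_sound (by norm_num) (by norm_num) (by norm_num) c8_0
theorem u7 : W7 = P (w8 22287 36823) (.cons 17595 19 (.cons 11799 17 (.cons 7429 3 .nil))) 7752 :=
  chkW_sound (by norm_num) (by norm_num) (by norm_num) c7_0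
theorem u6 : W6 = P (w8 22287 29394) (.cons 17595 19 (.cons 11799 17 .nil)) 15181 :=
  chkW_sound (by norm_num) (by norm_num) (by norm_num) c6_0
theorem u5 : W5 = P (w8 22287 25024) (.cons 17595 19 (.cons 7429 3 .nil)) 19551 :=
  chkW_sound (by norm_num) (by norm_num) (by norm_num) c5_0
theorem u4 : W4 = P (w8 22287 17595) (.cons 17595 19 .nil) 26980 :=
  chkW_sound (by norm_num) (by norm_num) (by norm_num) c4_0
theorem u3 : W3 = P (w8 22287 19228) (.cons 11799 17 (.cons 7429 3 .nil)) 25347 :=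
  chkW_sound (by norm_num) (by norm_num) (by norm_num) c3_0
theorem u2 : W2 = P (w8 22287 11799) (.cons 11799 17 .nil) 32776 :=
  chkW_sound (by norm_num) (by norm_num) (by norm_num) c2_0
theorem u1 : W1 = P (w8 22287 7429) (.cons 7429 3 .nil) 37146 :=
  chkW_sound (by norm_num) (by norm_num) (by norm_num) c1_0
theorem tr_eq : tr = TR (w8 22287) [(7752, 23, 8047776, 255), (17595, 19, 324876, 255), (11799, 17, 23784, 1), (7429, 3, 4, 255)] .nil 0 0 :=
  mk_node (mk_node (mk_node (mk_node (mk_leaf rfl u15) (mk_leaf rfl u14)) (mk_node (mk_leaf rfl u13) (mk_leaf rfl u12))) (mk_node (mk_node (mk_leaf rfl u11) (mk_leaf rfl u10)) (mk_node (mk_leaf rfl u9) (mk_leaf rfl u8)))) (mk_node (mk_node (mk_node (mk_leaf rfl u7) (mk_leaf rfl u6)) (mk_node (mk_leaf rfl u5) (mk_leaf rfl u4))) (mk_node (mk_node (mk_leaf rfl u3) (mk_leaf rfl u2)) (mk_node (mk_leaf rfl u1) (mk_leaf rfl (w8_zero _ _).symm))))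
theorem tb (d : ℤ) (n : ℕ)
    (h : ∀ l ∈ ({23, 19, 17, 3} : Finset ℕ), jacobiSym ((n : ℤ) ^ 2 + 4) l = -1) :
    (512 : ℤ) ∣ Pool.Agent.N367.LE.SEr d {23, 19, 17, 3} n -
      256 * (((BT22287 >>> (((n % 23 * 19 + n % 19) * 17 + n % 17) * 3 + n % 3)) % 2 : ℕ) : ℤ) :=
  tb_gen (m := 22287) pd23 pd19 pd17 pd3 (by norm_num) (by norm_num) (by norm_num)
    (by norm_num) (by norm_num) (by norm_num) (show Idem 3 17 19 23 7429 11799 17595 7752 from Idem.of (by decide)) (by norm_num) (by norm_num)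
    (by norm_num) (by rw [← tr_eq]; exact ev_true) d n h

end Pool.Agent.N156.HT.D22287
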