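import Pool.Agent.N156.HT.H9
import Pool.Agent.N156.HT.D24871

/-! The sum for 19 17 11 7. -/

namespace Pool.Agent.N156.HT.D24871

open Pool.Agent.N156.HT Pool.Agent.N911.L

set_option exponentiation.threshold 2000000

theorem u15 : W15 = P (w8 24871 24872) (.cons 11781 19 (.cons 1463 17 (.cons 4522 11 (.cons 7106 7 .nil)))) 0 :=
  by
  unfold W15
  exact @P_join (w8 24871 24872) 11781 4 (4 + (4 + (4 + (3)))) 0 47124 230384 (.cons 1463 17 (.cons 4522 11 (.cons 7106 7 .nil))) W15c0 (Nat.add W15c1 (Nat.mul (Nat.pow 2 230384) (Nat.add W15c2 (Nat.mul (Nat.pow 2 230384) (Nat.add W15c3 (Nat.mul (Nat.pow 2 230384) (W15c4)))))))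
    (chkW_sound (by norm_num) (by norm_num) (by norm_num) c15_0)
    (@P_join (w8 24871 24872) 11781 4 (4 + (4 + (3))) 47124 94248 230384 (.cons 1463 17 (.cons 4522 11 (.cons 7106 7 .nil))) W15c1 (Nat.add W15c2 (Nat.mul (Nat.pow 2 230384) (Nat.add W15c3 (Nat.mul (Nat.pow 2 230384) (W15c4)))))
    (chkW_sound (by norm_num) (by norm_num) (by norm_num) c15_1)
    (@P_join (w8 24871 24872) 11781 4 (4 + (3)) 94248 141372 230384 (.cons 1463 17 (.cons 4522 11 (.cons 7106 7 .nil))) W15c2 (Nat.add W15c3 (Nat.mul (Nat.pow 2 230384) (W15c4)))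
    (chkW_sound (by norm_num) (by norm_num) (by norm_num) c15_2)
    (@P_join (w8 24871 24872) 11781 4 (3) 141372 188496 230384 (.cons 1463 17 (.cons 4522 11 (.cons 7106 7 .nil))) W15c3 (W15c4)
    (chkW_sound (by norm_num) (by norm_num) (by norm_num) c15_3)
    (chkW_sound (by norm_num) (by norm_num) (by norm_num) c15_4) (by norm_num) rfl) (by norm_num) rfl) (by norm_num) rfl) (by norm_num) rfl
theorem u14 : W14 = P (w8 24871 17766) (.cons 11781 19 (.cons 1463 17 (.cons 4522 11 .nil))) 7106 :=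
  chkW_sound (by norm_num) (by norm_num) (by norm_num) c14_0
theorem u13 : W13 = P (w8 24871 20350) (.cons 11781 19 (.cons 1463 17 (.cons 7106 7 .nil))) 4522 :=
  chkW_sound (by norm_num) (by norm_num) (by norm_num) c13_0
theorem u12 : W12 = P (w8 24871 13244) (.cons 11781 19 (.cons 1463 17 .nil)) 11628 :=
  chkW_sound (by norm_num) (by norm_num) (by norm_num) c12_0
theorem u11 : W11 = P (w8 24871 23409) (.cons 11781 19 (.cons 4522 11 (.cons 7106 7 .nil))) 1463 :=
  chkW_sound (by norm_num) (by norm_num) (by norm_num) c11_0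
theorem u10 : W10 = P (w8 24871 16303) (.cons 11781 19 (.cons 4522 11 .nil)) 8569 :=
  chkW_sound (by norm_num) (by norm_num) (by norm_num) c10_0
theorem u9 : W9 = P (w8 24871 18887) (.cons 11781 19 (.cons 7106 7 .nil)) 5985 :=
  chkW_sound (by norm_num) (by norm_num) (by norm_num) c9_0
theorem u8 : W8 = P (w8 24871 11781) (.cons 11781 19 .nil) 13091 :=
  chkW_sound (by norm_num) (by norm_num) (by norm_num) c8_0
theorem u7 : W7 = P (w8 24871 13091) (.cons 1463 17 (.cons 4522 11 (.cons 7106 7 .nil))) 11781 :=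
  chkW_sound (by norm_num) (by norm_num) (by norm_num) c7_0
theorem u6 : W6 = P (w8 24871 5985) (.cons 1463 17 (.cons 4522 11 .nil)) 18887 :=
  chkW_sound (by norm_num) (by norm_num) (by norm_num) c6_0
theorem u5 : W5 = P (w8 24871 8569) (.cons 1463 17 (.cons 7106 7 .nil)) 16303 :=
  chkW_sound (by norm_num) (by norm_num) (by norm_num) c5_0
theorem u4 : W4 = P (w8 24871 1463) (.cons 1463 17 .nil) 23409 :=
  chkW_sound (by norm_num) (by norm_num) (by norm_num) c4_0
theorem u3 : W3 = P (w8 24871 11628) (.cons 4522 11 (.cons 7106 7 .nil)) 13244 :=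
  chkW_sound (by norm_num) (by norm_num) (by norm_num) c3_0
theorem u2 : W2 = P (w8 24871 4522) (.cons 4522 11 .nil) 20350 :=
  chkW_sound (by norm_num) (by norm_num) (by norm_num) c2_0
theorem u1 : W1 = P (w8 24871 7106) (.cons 7106 7 .nil) 17766 :=
  chkW_sound (by norm_num) (by norm_num) (by norm_num) c1_0
theorem tr_eq : tr = TR (w8 24871) [(11781, 19, 324876, 255), (1463, 17, 23784, 1), (4522, 11, 1476, 255), (7106, 7, 104, 255)] .nil 0 0 :=
  mk_node (mk_node (mk_node (mk_node (mk_leaf rfl u15) (mk_leaf rfl u14)) (mk_node (mk_leaf rfl u13) (mk_leaf rfl u12))) (mk_node (mk_node (mk_leaf rfl u11) (mk_leaf rfl u10)) (mk_node (mk_leaf rfl u9) (mk_leaf rfl u8)))) (mk_node (mk_node (mk_node (mk_leaf rfl u7) (mk_leaf rfl u6)) (mk_node (mk_leaf rfl u5) (mk_leaf rfl u4))) (mk_node (mk_node (mk_leaf rfl u3) (mk_leaf rfl u2)) (mk_node (mk_leaf rfl u1) (mk_leaf rfl (w8_zero _ _).symm))))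
theorem tb (d : ℤ) (n : ℕ)
    (h : ∀ l ∈ ({19, 17, 11, 7} : Finset ℕ), jacobiSym ((n : ℤ) ^ 2 + 4) l = -1) :
    (512 : ℤ) ∣ Pool.Agent.N367.LE.SEr d {19, 17, 11, 7} n -
      256 * (((BT24871 >>> (((n % 19 * 17 + n % 17) * 11 + n % 11) * 7 + n % 7)) % 2 : ℕ) : ℤ) :=
  tb_gen (m := 24871) pd19 pd17 pd11 pd7 (by norm_num) (by norm_num) (by norm_num)
    (by norm_num) (by norm_num) (by norm_num) (show Idem 7 11 17 19 7106 4522 1463 11781 from Idem.of (by decide)) (by norm_num) (by norm_num)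
    (by norm_num) (by rw [← tr_eq]; exact ev_true) d n h

end Pool.Agent.N156.HT.D24871
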