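import Pool.Agent.N156.HT.H9
import Pool.Agent.N156.HT.D3003

/-! The sum for 13 11 7 3. -/

namespace Pool.Agent.N156.HT.D3003

open Pool.Agent.N156.HT Pool.Agent.N911.L

theorem u15 : W15 = P (w8 3003 6007) (.cons 924 13 (.cons 1365 11 (.cons 1716 7 (.cons 2002 3 .nil)))) 0 :=
  chkW_sound (by norm_num) (by norm_num) (by norm_num) c15_0
theorem u14 : W14 = P (w8 3003 4005) (.cons 924 13 (.cons 1365 11 (.cons 1716 7 .nil))) 2002 :=
  chkW_sound (by norm_num) (by norm_num) (by norm_num) c14_0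
theorem u13 : W13 = P (w8 3003 4291) (.cons 924 13 (.cons 1365 11 (.cons 2002 3 .nil))) 1716 :=
  chkW_sound (by norm_num) (by norm_num) (by norm_num) c13_0
theorem u12 : W12 = P (w8 3003 2289) (.cons 924 13 (.cons 1365 11 .nil)) 3718 :=
  chkW_sound (by norm_num) (by norm_num) (by norm_num) c12_0
theorem u11 : W11 = P (w8 3003 4642) (.cons 924 13 (.cons 1716 7 (.cons 2002 3 .nil))) 1365 :=
  chkW_sound (by norm_num) (by norm_num) (by norm_num) c11_0
theorem u10 : W10 = P (w8 3003 2640) (.cons 924 13 (.cons 1716 7 .nil)) 3367 :=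
  chkW_sound (by norm_num) (by norm_num) (by norm_num) c10_0
theorem u9 : W9 = P (w8 3003 2926) (.cons 924 13 (.cons 2002 3 .nil)) 3081 :=
  chkW_sound (by norm_num) (by norm_num) (by norm_num) c9_0
theorem u8 : W8 = P (w8 3003 924) (.cons 924 13 .nil) 5083 :=
  chkW_sound (by norm_num) (by norm_num) (by norm_num) c8_0
theorem u7 : W7 = P (w8 3003 5083) (.cons 1365 11 (.cons 1716 7 (.cons 2002 3 .nil))) 924 :=
  chkW_sound (by norm_num) (by norm_num) (by norm_num) c7_0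
theorem u6 : W6 = P (w8 3003 3081) (.cons 1365 11 (.cons 1716 7 .nil)) 2926 :=
  chkW_sound (by norm_num) (by norm_num) (by norm_num) c6_0
theorem u5 : W5 = P (w8 3003 3367) (.cons 1365 11 (.cons 2002 3 .nil)) 2640 :=
  chkW_sound (by norm_num) (by norm_num) (by norm_num) c5_0
theorem u4 : W4 = P (w8 3003 1365) (.cons 1365 11 .nil) 4642 :=
  chkW_sound (by norm_num) (by norm_num) (by norm_num) c4_0
theorem u3 : W3 = P (w8 3003 3718) (.cons 1716 7 (.cons 2002 3 .nil)) 2289 :=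
  chkW_sound (by norm_num) (by norm_num) (by norm_num) c3_0
theorem u2 : W2 = P (w8 3003 1716) (.cons 1716 7 .nil) 4291 :=
  chkW_sound (by norm_num) (by norm_num) (by norm_num) c2_0
theorem u1 : W1 = P (w8 3003 2002) (.cons 2002 3 .nil) 4005 :=
  chkW_sound (by norm_num) (by norm_num) (by norm_num) c1_0
theorem tr_eq : tr = TR (w8 3003) [(924, 13, 2532, 1), (1365, 11, 1476, 255), (1716, 7, 104, 255), (2002, 3, 4, 255)] .nil 0 0 :=
  mk_node (mk_node (mk_node (mk_node (mk_leaf rfl u15) (mk_leaf rfl u14)) (mk_node (mk_leaf rfl u13) (mk_leaf rfl u12))) (mk_node (mk_node (mk_leaf rfl u11) (mk_leaf rfl u10)) (mk_node (mk_leaf rfl u9) (mk_leaf rfl u8)))) (mk_node (mk_node (mk_node (mk_leaf rfl u7) (mk_leaf rfl u6)) (mk_node (mk_leaf rfl u5) (mk_leaf rfl u4))) (mk_node (mk_node (mk_leaf rfl u3) (mk_leaf rfl u2)) (mk_node (mk_leaf rfl u1) (mk_leaf rfl (w8_zero _ _).symm))))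
theorem tb (d : ℤ) (n : ℕ)
    (h : ∀ l ∈ ({13, 11, 7, 3} : Finset ℕ), jacobiSym ((n : ℤ) ^ 2 + 4) l = -1) :
    (512 : ℤ) ∣ Pool.Agent.N367.LE.SEr d {13, 11, 7, 3} n -
      256 * (((BT3003 >>> (((n % 13 * 11 + n % 11) * 7 + n % 7) * 3 + n % 3)) % 2 : ℕ) : ℤ) :=
  tb_gen (m := 3003) pd13 pd11 pd7 pd3 (by norm_num) (by norm_num) (by norm_num)
    (by norm_num) (by norm_num) (by norm_num) (show Idem 3 7 11 13 2002 1716 1365 924 from Idem.of (by decide)) (by norm_num) (by norm_num)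
    (by norm_num) (by rw [← tr_eq]; exact ev_true) d n h

end Pool.Agent.N156.HT.D3003
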