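import Pool.Agent.N156.HT.H9
import Pool.Agent.N156.HT.D5187

/-! The sum for 19 13 7 3. -/

namespace Pool.Agent.N156.HT.D5187

open Pool.Agent.N156.HT Pool.Agent.N911.L

theorem u15 : W15 = P (w8 5187 10375) (.cons 3003 19 (.cons 1197 13 (.cons 4446 7 (.cons 1729 3 .nil)))) 0 :=
  chkW_sound (by norm_num) (by norm_num) (by norm_num) c15_0
theorem u14 : W14 = P (w8 5187 8646) (.cons 3003 19 (.cons 1197 13 (.cons 4446 7 .nil))) 1729 :=
  chkW_sound (by norm_num) (by norm_num) (by norm_num) c14_0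
theorem u13 : W13 = P (w8 5187 5929) (.cons 3003 19 (.cons 1197 13 (.cons 1729 3 .nil))) 4446 :=
  chkW_sound (by norm_num) (by norm_num) (by norm_num) c13_0
theorem u12 : W12 = P (w8 5187 4200) (.cons 3003 19 (.cons 1197 13 .nil)) 6175 :=
  chkW_sound (by norm_num) (by norm_num) (by norm_num) c12_0
theorem u11 : W11 = P (w8 5187 9178) (.cons 3003 19 (.cons 4446 7 (.cons 1729 3 .nil))) 1197 :=
  chkW_sound (by norm_num) (by norm_num) (by norm_num) c11_0
theorem u10 : W10 = P (w8 5187 7449) (.cons 3003 19 (.cons 4446 7 .nil)) 2926 :=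
  chkW_sound (by norm_num) (by norm_num) (by norm_num) c10_0
theorem u9 : W9 = P (w8 5187 4732) (.cons 3003 19 (.cons 1729 3 .nil)) 5643 :=
  chkW_sound (by norm_num) (by norm_num) (by norm_num) c9_0
theorem u8 : W8 = P (w8 5187 3003) (.cons 3003 19 .nil) 7372 :=
  chkW_sound (by norm_num) (by norm_num) (by norm_num) c8_0
theorem u7 : W7 = P (w8 5187 7372) (.cons 1197 13 (.cons 4446 7 (.cons 1729 3 .nil))) 3003 :=
  chkW_sound (by norm_num) (by norm_num) (by norm_num) c7_0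
theorem u6 : W6 = P (w8 5187 5643) (.cons 1197 13 (.cons 4446 7 .nil)) 4732 :=
  chkW_sound (by norm_num) (by norm_num) (by norm_num) c6_0
theorem u5 : W5 = P (w8 5187 2926) (.cons 1197 13 (.cons 1729 3 .nil)) 7449 :=
  chkW_sound (by norm_num) (by norm_num) (by norm_num) c5_0
theorem u4 : W4 = P (w8 5187 1197) (.cons 1197 13 .nil) 9178 :=
  chkW_sound (by norm_num) (by norm_num) (by norm_num) c4_0
theorem u3 : W3 = P (w8 5187 6175) (.cons 4446 7 (.cons 1729 3 .nil)) 4200 :=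
  chkW_sound (by norm_num) (by norm_num) (by norm_num) c3_0
theorem u2 : W2 = P (w8 5187 4446) (.cons 4446 7 .nil) 5929 :=
  chkW_sound (by norm_num) (by norm_num) (by norm_num) c2_0
theorem u1 : W1 = P (w8 5187 1729) (.cons 1729 3 .nil) 8646 :=
  chkW_sound (by norm_num) (by norm_num) (by norm_num) c1_0
theorem tr_eq : tr = TR (w8 5187) [(3003, 19, 324876, 255), (1197, 13, 2532, 1), (4446, 7, 104, 255), (1729, 3, 4, 255)] .nil 0 0 :=
  mk_node (mk_node (mk_node (mk_node (mk_leaf rfl u15) (mk_leaf rfl u14)) (mk_node (mk_leaf rfl u13) (mk_leaf rfl u12))) (mk_node (mk_node (mk_leaf rfl u11) (mk_leaf rfl u10)) (mk_node (mk_leaf rfl u9) (mk_leaf rfl u8)))) (mk_node (mk_node (mk_node (mk_leaf rfl u7) (mk_leaf rfl u6)) (mk_node (mk_leaf rfl u5) (mk_leaf rfl u4))) (mk_node (mk_node (mk_leaf rfl u3) (mk_leaf rfl u2)) (mk_node (mk_leaf rfl u1) (mk_leaf rfl (w8_zero _ _).symm))))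
theorem tb (d : ℤ) (n : ℕ)
    (h : ∀ l ∈ ({19, 13, 7, 3} : Finset ℕ), jacobiSym ((n : ℤ) ^ 2 + 4) l = -1) :
    (512 : ℤ) ∣ Pool.Agent.N367.LE.SEr d {19, 13, 7, 3} n -
      256 * (((BT5187 >>> (((n % 19 * 13 + n % 13) * 7 + n % 7) * 3 + n % 3)) % 2 : ℕ) : ℤ) :=
  tb_gen (m := 5187) pd19 pd13 pd7 pd3 (by norm_num) (by norm_num) (by norm_num)
    (by norm_num) (by norm_num) (by norm_num) (show Idem 3 7 13 19 1729 4446 1197 3003 from Idem.of (by decide)) (by norm_num) (by norm_num)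
    (by norm_num) (by rw [← tr_eq]; exact ev_true) d n h

end Pool.Agent.N156.HT.D5187
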