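import Pool.Agent.N156.HT.H9
import Pool.Agent.N156.HT.D6279

/-! The sum for 23 13 7 3. -/

namespace Pool.Agent.N156.HT.D6279

open Pool.Agent.N156.HT Pool.Agent.N911.L

theorem u15 : W15 = P (w8 6279 12559) (.cons 4095 23 (.cons 3381 13 (.cons 897 7 (.cons 4186 3 .nil)))) 0 :=
  chkW_sound (by norm_num) (by norm_num) (by norm_num) c15_0
theorem u14 : W14 = P (w8 6279 8373) (.cons 4095 23 (.cons 3381 13 (.cons 897 7 .nil))) 4186 :=
  chkW_sound (by norm_num) (by norm_num) (by norm_num) c14_0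
theorem u13 : W13 = P (w8 6279 11662) (.cons 4095 23 (.cons 3381 13 (.cons 4186 3 .nil))) 897 :=
  chkW_sound (by norm_num) (by norm_num) (by norm_num) c13_0
theorem u12 : W12 = P (w8 6279 7476) (.cons 4095 23 (.cons 3381 13 .nil)) 5083 :=
  chkW_sound (by norm_num) (by norm_num) (by norm_num) c12_0
theorem u11 : W11 = P (w8 6279 9178) (.cons 4095 23 (.cons 897 7 (.cons 4186 3 .nil))) 3381 :=
  chkW_sound (by norm_num) (by norm_num) (by norm_num) c11_0
theorem u10 : W10 = P (w8 6279 4992) (.cons 4095 23 (.cons 897 7 .nil)) 7567 :=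
  chkW_sound (by norm_num) (by norm_num) (by norm_num) c10_0
theorem u9 : W9 = P (w8 6279 8281) (.cons 4095 23 (.cons 4186 3 .nil)) 4278 :=
  chkW_sound (by norm_num) (by norm_num) (by norm_num) c9_0
theorem u8 : W8 = P (w8 6279 4095) (.cons 4095 23 .nil) 8464 :=
  chkW_sound (by norm_num) (by norm_num) (by norm_num) c8_0
theorem u7 : W7 = P (w8 6279 8464) (.cons 3381 13 (.cons 897 7 (.cons 4186 3 .nil))) 4095 :=
  chkW_sound (by norm_num) (by norm_num) (by norm_num) c7_0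
theorem u6 : W6 = P (w8 6279 4278) (.cons 3381 13 (.cons 897 7 .nil)) 8281 :=
  chkW_sound (by norm_num) (by norm_num) (by norm_num) c6_0
theorem u5 : W5 = P (w8 6279 7567) (.cons 3381 13 (.cons 4186 3 .nil)) 4992 :=
  chkW_sound (by norm_num) (by norm_num) (by norm_num) c5_0
theorem u4 : W4 = P (w8 6279 3381) (.cons 3381 13 .nil) 9178 :=
  chkW_sound (by norm_num) (by norm_num) (by norm_num) c4_0
theorem u3 : W3 = P (w8 6279 5083) (.cons 897 7 (.cons 4186 3 .nil)) 7476 :=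
  chkW_sound (by norm_num) (by norm_num) (by norm_num) c3_0
theorem u2 : W2 = P (w8 6279 897) (.cons 897 7 .nil) 11662 :=
  chkW_sound (by norm_num) (by norm_num) (by norm_num) c2_0
theorem u1 : W1 = P (w8 6279 4186) (.cons 4186 3 .nil) 8373 :=
  chkW_sound (by norm_num) (by norm_num) (by norm_num) c1_0
theorem tr_eq : tr = TR (w8 6279) [(4095, 23, 8047776, 255), (3381, 13, 2532, 1), (897, 7, 104, 255), (4186, 3, 4, 255)] .nil 0 0 :=
  mk_node (mk_node (mk_node (mk_node (mk_leaf rfl u15) (mk_leaf rfl u14)) (mk_node (mk_leaf rfl u13) (mk_leaf rfl u12))) (mk_node (mk_node (mk_leaf rfl u11) (mk_leaf rfl u10)) (mk_node (mk_leaf rfl u9) (mk_leaf rfl u8)))) (mk_node (mk_node (mk_node (mk_leaf rfl u7) (mk_leaf rfl u6)) (mk_node (mk_leaf rfl u5) (mk_leaf rfl u4))) (mk_node (mk_node (mk_leaf rfl u3) (mk_leaf rfl u2)) (mk_node (mk_leaf rfl u1) (mk_leaf rfl (w8_zero _ _).symm))))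
theorem tb (d : ℤ) (n : ℕ)
    (h : ∀ l ∈ ({23, 13, 7, 3} : Finset ℕ), jacobiSym ((n : ℤ) ^ 2 + 4) l = -1) :
    (512 : ℤ) ∣ Pool.Agent.N367.LE.SEr d {23, 13, 7, 3} n -
      256 * (((BT6279 >>> (((n % 23 * 13 + n % 13) * 7 + n % 7) * 3 + n % 3)) % 2 : ℕ) : ℤ) :=
  tb_gen (m := 6279) pd23 pd13 pd7 pd3 (by norm_num) (by norm_num) (by norm_num)
    (by norm_num) (by norm_num) (by norm_num) (show Idem 3 7 13 23 4186 897 3381 4095 from Idem.of (by decide)) (by norm_num) (by norm_num)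
    (by norm_num) (by rw [← tr_eq]; exact ev_true) d n h

end Pool.Agent.N156.HT.D6279
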