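import Pool.Agent.N156.HT.H9
import Pool.Agent.N156.HT.D6699

/-! The sum for 29 11 7 3. -/

namespace Pool.Agent.N156.HT.D6699

open Pool.Agent.N156.HT Pool.Agent.N911.L

theorem u15 : W15 = P (w8 6699 13399) (.cons 6468 29 (.cons 1827 11 (.cons 2871 7 (.cons 2233 3 .nil)))) 0 :=
  chkW_sound (by norm_num) (by norm_num) (by norm_num) c15_0
theorem u14 : W14 = P (w8 6699 11166) (.cons 6468 29 (.cons 1827 11 (.cons 2871 7 .nil))) 2233 :=
  chkW_sound (by norm_num) (by norm_num) (by norm_num) c14_0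
theorem u13 : W13 = P (w8 6699 10528) (.cons 6468 29 (.cons 1827 11 (.cons 2233 3 .nil))) 2871 :=
  chkW_sound (by norm_num) (by norm_num) (by norm_num) c13_0
theorem u12 : W12 = P (w8 6699 8295) (.cons 6468 29 (.cons 1827 11 .nil)) 5104 :=
  chkW_sound (by norm_num) (by norm_num) (by norm_num) c12_0
theorem u11 : W11 = P (w8 6699 11572) (.cons 6468 29 (.cons 2871 7 (.cons 2233 3 .nil))) 1827 :=
  chkW_sound (by norm_num) (by norm_num) (by norm_num) c11_0
theorem u10 : W10 = P (w8 6699 9339) (.cons 6468 29 (.cons 2871 7 .nil)) 4060 :=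
  chkW_sound (by norm_num) (by norm_num) (by norm_num) c10_0
theorem u9 : W9 = P (w8 6699 8701) (.cons 6468 29 (.cons 2233 3 .nil)) 4698 :=
  chkW_sound (by norm_num) (by norm_num) (by norm_num) c9_0
theorem u8 : W8 = P (w8 6699 6468) (.cons 6468 29 .nil) 6931 :=
  chkW_sound (by norm_num) (by norm_num) (by norm_num) c8_0
theorem u7 : W7 = P (w8 6699 6931) (.cons 1827 11 (.cons 2871 7 (.cons 2233 3 .nil))) 6468 :=
  chkW_sound (by norm_num) (by norm_num) (by norm_num) c7_0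
theorem u6 : W6 = P (w8 6699 4698) (.cons 1827 11 (.cons 2871 7 .nil)) 8701 :=
  chkW_sound (by norm_num) (by norm_num) (by norm_num) c6_0
theorem u5 : W5 = P (w8 6699 4060) (.cons 1827 11 (.cons 2233 3 .nil)) 9339 :=
  chkW_sound (by norm_num) (by norm_num) (by norm_num) c5_0
theorem u4 : W4 = P (w8 6699 1827) (.cons 1827 11 .nil) 11572 :=
  chkW_sound (by norm_num) (by norm_num) (by norm_num) c4_0
theorem u3 : W3 = P (w8 6699 5104) (.cons 2871 7 (.cons 2233 3 .nil)) 8295 :=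
  chkW_sound (by norm_num) (by norm_num) (by norm_num) c3_0
theorem u2 : W2 = P (w8 6699 2871) (.cons 2871 7 .nil) 10528 :=
  chkW_sound (by norm_num) (by norm_num) (by norm_num) c2_0
theorem u1 : W1 = P (w8 6699 2233) (.cons 2233 3 .nil) 11166 :=
  chkW_sound (by norm_num) (by norm_num) (by norm_num) c1_0
theorem tr_eq : tr = TR (w8 6699) [(6468, 29, 204397836, 1), (1827, 11, 1476, 255), (2871, 7, 104, 255), (2233, 3, 4, 255)] .nil 0 0 :=
  mk_node (mk_node (mk_node (mk_node (mk_leaf rfl u15) (mk_leaf rfl u14)) (mk_node (mk_leaf rfl u13) (mk_leaf rfl u12))) (mk_node (mk_node (mk_leaf rfl u11) (mk_leaf rfl u10)) (mk_node (mk_leaf rfl u9) (mk_leaf rfl u8)))) (mk_node (mk_node (mk_node (mk_leaf rfl u7) (mk_leaf rfl u6)) (mk_node (mk_leaf rfl u5) (mk_leaf rfl u4))) (mk_node (mk_node (mk_leaf rfl u3) (mk_leaf rfl u2)) (mk_node (mk_leaf rfl u1) (mk_leaf rfl (w8_zero _ _).symm))))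
theorem tb (d : ℤ) (n : ℕ)
    (h : ∀ l ∈ ({29, 11, 7, 3} : Finset ℕ), jacobiSym ((n : ℤ) ^ 2 + 4) l = -1) :
    (512 : ℤ) ∣ Pool.Agent.N367.LE.SEr d {29, 11, 7, 3} n -
      256 * (((BT6699 >>> (((n % 29 * 11 + n % 11) * 7 + n % 7) * 3 + n % 3)) % 2 : ℕ) : ℤ) :=
  tb_gen (m := 6699) pd29 pd11 pd7 pd3 (by norm_num) (by norm_num) (by norm_num)
    (by norm_num) (by norm_num) (by norm_num) (show Idem 3 7 11 29 2233 2871 1827 6468 from Idem.of (by decide)) (by norm_num) (by norm_num)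
    (by norm_num) (by rw [← tr_eq]; exact ev_true) d n h

end Pool.Agent.N156.HT.D6699
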