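import Pool.Agent.N156.HT.H9
import Pool.Agent.N156.HT.D8151

/-! The sum for 19 13 11 3. -/

namespace Pool.Agent.N156.HT.D8151

open Pool.Agent.N156.HT Pool.Agent.N911.L

theorem u15 : W15 = P (w8 8151 16303) (.cons 3003 19 (.cons 5643 13 (.cons 2223 11 (.cons 5434 3 .nil)))) 0 :=
  chkW_sound (by norm_num) (by norm_num) (by norm_num) c15_0
theorem u14 : W14 = P (w8 8151 10869) (.cons 3003 19 (.cons 5643 13 (.cons 2223 11 .nil))) 5434 :=
  chkW_sound (by norm_num) (by norm_num) (by norm_num) c14_0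
theorem u13 : W13 = P (w8 8151 14080) (.cons 3003 19 (.cons 5643 13 (.cons 5434 3 .nil))) 2223 :=
  chkW_sound (by norm_num) (by norm_num) (by norm_num) c13_0
theorem u12 : W12 = P (w8 8151 8646) (.cons 3003 19 (.cons 5643 13 .nil)) 7657 :=
  chkW_sound (by norm_num) (by norm_num) (by norm_num) c12_0
theorem u11 : W11 = P (w8 8151 10660) (.cons 3003 19 (.cons 2223 11 (.cons 5434 3 .nil))) 5643 :=
  chkW_sound (by norm_num) (by norm_num) (by norm_num) c11_0
theorem u10 : W10 = P (w8 8151 5226) (.cons 3003 19 (.cons 2223 11 .nil)) 11077 :=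
  chkW_sound (by norm_num) (by norm_num) (by norm_num) c10_0
theorem u9 : W9 = P (w8 8151 8437) (.cons 3003 19 (.cons 5434 3 .nil)) 7866 :=
  chkW_sound (by norm_num) (by norm_num) (by norm_num) c9_0
theorem u8 : W8 = P (w8 8151 3003) (.cons 3003 19 .nil) 13300 :=
  chkW_sound (by norm_num) (by norm_num) (by norm_num) c8_0
theorem u7 : W7 = P (w8 8151 13300) (.cons 5643 13 (.cons 2223 11 (.cons 5434 3 .nil))) 3003 :=
  chkW_sound (by norm_num) (by norm_num) (by norm_num) c7_0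
theorem u6 : W6 = P (w8 8151 7866) (.cons 5643 13 (.cons 2223 11 .nil)) 8437 :=
  chkW_sound (by norm_num) (by norm_num) (by norm_num) c6_0
theorem u5 : W5 = P (w8 8151 11077) (.cons 5643 13 (.cons 5434 3 .nil)) 5226 :=
  chkW_sound (by norm_num) (by norm_num) (by norm_num) c5_0
theorem u4 : W4 = P (w8 8151 5643) (.cons 5643 13 .nil) 10660 :=
  chkW_sound (by norm_num) (by norm_num) (by norm_num) c4_0
theorem u3 : W3 = P (w8 8151 7657) (.cons 2223 11 (.cons 5434 3 .nil)) 8646 :=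
  chkW_sound (by norm_num) (by norm_num) (by norm_num) c3_0
theorem u2 : W2 = P (w8 8151 2223) (.cons 2223 11 .nil) 14080 :=
  chkW_sound (by norm_num) (by norm_num) (by norm_num) c2_0
theorem u1 : W1 = P (w8 8151 5434) (.cons 5434 3 .nil) 10869 :=
  chkW_sound (by norm_num) (by norm_num) (by norm_num) c1_0
theorem tr_eq : tr = TR (w8 8151) [(3003, 19, 324876, 255), (5643, 13, 2532, 1), (2223, 11, 1476, 255), (5434, 3, 4, 255)] .nil 0 0 :=
  mk_node (mk_node (mk_node (mk_node (mk_leaf rfl u15) (mk_leaf rfl u14)) (mk_node (mk_leaf rfl u13) (mk_leaf rfl u12))) (mk_node (mk_node (mk_leaf rfl u11) (mk_leaf rfl u10)) (mk_node (mk_leaf rfl u9) (mk_leaf rfl u8)))) (mk_node (mk_node (mk_node (mk_leaf rfl u7) (mk_leaf rfl u6)) (mk_node (mk_leaf rfl u5) (mk_leaf rfl u4))) (mk_node (mk_node (mk_leaf rfl u3) (mk_leaf rfl u2)) (mk_node (mk_leaf rfl u1) (mk_leaf rfl (w8_zero _ _).symm))))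
theorem tb (d : ℤ) (n : ℕ)
    (h : ∀ l ∈ ({19, 13, 11, 3} : Finset ℕ), jacobiSym ((n : ℤ) ^ 2 + 4) l = -1) :
    (512 : ℤ) ∣ Pool.Agent.N367.LE.SEr d {19, 13, 11, 3} n -
      256 * (((BT8151 >>> (((n % 19 * 13 + n % 13) * 11 + n % 11) * 3 + n % 3)) % 2 : ℕ) : ℤ) :=
  tb_gen (m := 8151) pd19 pd13 pd11 pd3 (by norm_num) (by norm_num) (by norm_num)
    (by norm_num) (by norm_num) (by norm_num) (show Idem 3 11 13 19 5434 2223 5643 3003 from Idem.of (by decide)) (by norm_num) (by norm_num)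
    (by norm_num) (by rw [← tr_eq]; exact ev_true) d n h

end Pool.Agent.N156.HT.D8151
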