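import Pool.Agent.N156.HT.H9
import Pool.Agent.N156.HT.D9867

/-! The sum for 23 13 11 3. -/

namespace Pool.Agent.N156.HT.D9867

open Pool.Agent.N156.HT Pool.Agent.N911.L

theorem u15 : W15 = P (w8 9867 19735) (.cons 8580 23 (.cons 6072 13 (.cons 1794 11 (.cons 3289 3 .nil)))) 0 :=
  chkW_sound (by norm_num) (by norm_num) (by norm_num) c15_0
theorem u14 : W14 = P (w8 9867 16446) (.cons 8580 23 (.cons 6072 13 (.cons 1794 11 .nil))) 3289 :=
  chkW_sound (by norm_num) (by norm_num) (by norm_num) c14_0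
theorem u13 : W13 = P (w8 9867 17941) (.cons 8580 23 (.cons 6072 13 (.cons 3289 3 .nil))) 1794 :=
  chkW_sound (by norm_num) (by norm_num) (by norm_num) c13_0
theorem u12 : W12 = P (w8 9867 14652) (.cons 8580 23 (.cons 6072 13 .nil)) 5083 :=
  chkW_sound (by norm_num) (by norm_num) (by norm_num) c12_0
theorem u11 : W11 = P (w8 9867 13663) (.cons 8580 23 (.cons 1794 11 (.cons 3289 3 .nil))) 6072 :=
  chkW_sound (by norm_num) (by norm_num) (by norm_num) c11_0
theorem u10 : W10 = P (w8 9867 10374) (.cons 8580 23 (.cons 1794 11 .nil)) 9361 :=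
  chkW_sound (by norm_num) (by norm_num) (by norm_num) c10_0
theorem u9 : W9 = P (w8 9867 11869) (.cons 8580 23 (.cons 3289 3 .nil)) 7866 :=
  chkW_sound (by norm_num) (by norm_num) (by norm_num) c9_0
theorem u8 : W8 = P (w8 9867 8580) (.cons 8580 23 .nil) 11155 :=
  chkW_sound (by norm_num) (by norm_num) (by norm_num) c8_0
theorem u7 : W7 = P (w8 9867 11155) (.cons 6072 13 (.cons 1794 11 (.cons 3289 3 .nil))) 8580 :=
  chkW_sound (by norm_num) (by norm_num) (by norm_num) c7_0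
theorem u6 : W6 = P (w8 9867 7866) (.cons 6072 13 (.cons 1794 11 .nil)) 11869 :=
  chkW_sound (by norm_num) (by norm_num) (by norm_num) c6_0
theorem u5 : W5 = P (w8 9867 9361) (.cons 6072 13 (.cons 3289 3 .nil)) 10374 :=
  chkW_sound (by norm_num) (by norm_num) (by norm_num) c5_0
theorem u4 : W4 = P (w8 9867 6072) (.cons 6072 13 .nil) 13663 :=
  chkW_sound (by norm_num) (by norm_num) (by norm_num) c4_0
theorem u3 : W3 = P (w8 9867 5083) (.cons 1794 11 (.cons 3289 3 .nil)) 14652 :=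
  chkW_sound (by norm_num) (by norm_num) (by norm_num) c3_0
theorem u2 : W2 = P (w8 9867 1794) (.cons 1794 11 .nil) 17941 :=
  chkW_sound (by norm_num) (by norm_num) (by norm_num) c2_0
theorem u1 : W1 = P (w8 9867 3289) (.cons 3289 3 .nil) 16446 :=
  chkW_sound (by norm_num) (by norm_num) (by norm_num) c1_0
theorem tr_eq : tr = TR (w8 9867) [(8580, 23, 8047776, 255), (6072, 13, 2532, 1), (1794, 11, 1476, 255), (3289, 3, 4, 255)] .nil 0 0 :=
  mk_node (mk_node (mk_node (mk_node (mk_leaf rfl u15) (mk_leaf rfl u14)) (mk_node (mk_leaf rfl u13) (mk_leaf rfl u12))) (mk_node (mk_node (mk_leaf rfl u11) (mk_leaf rfl u10)) (mk_node (mk_leaf rfl u9) (mk_leaf rfl u8)))) (mk_node (mk_node (mk_node (mk_leaf rfl u7) (mk_leaf rfl u6)) (mk_node (mk_leaf rfl u5) (mk_leaf rfl u4))) (mk_node (mk_node (mk_leaf rfl u3) (mk_leaf rfl u2)) (mk_node (mk_leaf rfl u1) (mk_leaf rfl (w8_zero _ _).symm))))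
theorem tb (d : ℤ) (n : ℕ)
    (h : ∀ l ∈ ({23, 13, 11, 3} : Finset ℕ), jacobiSym ((n : ℤ) ^ 2 + 4) l = -1) :
    (512 : ℤ) ∣ Pool.Agent.N367.LE.SEr d {23, 13, 11, 3} n -
      256 * (((BT9867 >>> (((n % 23 * 13 + n % 13) * 11 + n % 11) * 3 + n % 3)) % 2 : ℕ) : ℤ) :=
  tb_gen (m := 9867) pd23 pd13 pd11 pd3 (by norm_num) (by norm_num) (by norm_num)
    (by norm_num) (by norm_num) (by norm_num) (show Idem 3 11 13 23 3289 1794 6072 8580 from Idem.of (by decide)) (by norm_num) (by norm_num)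
    (by norm_num) (by rw [← tr_eq]; exact ev_true) d n h

end Pool.Agent.N156.HT.D9867
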