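import Mathlib

/-! Primitive pairs modulo a squarefree number as orbits of the units. -/

namespace Pool.Agent.N156.HT

open Finset

section

variable {R : Type*} [CommRing R] [Fintype R] [DecidableEq R] [IsReduced R]

omit [DecidableEq R] in
theorem exists_pow (x : R) : ∃ b : ℕ, 0 < b ∧ x ^ (b + 1) = x := by
  obtain ⟨i, j, hij, h⟩ := Finite.exists_ne_map_eq_of_infinite (fun k : ℕ => x ^ (k + 1))
  have key : ∀ i j : ℕ, i < j → x ^ (i + 1) = x ^ (j + 1) → ∃ b : ℕ, 0 < b ∧ x ^ (b + 1) = x := by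
    intro i j hij h
    refine ⟨j - i, by omega, ?_⟩
    have h1 : (x - x ^ (j - i + 1)) ^ (i + 1) = 0 := by
      have e : x - x ^ (j - i + 1) = x * (1 - x ^ (j - i)) := by ring
      rw [e, mul_pow]
      have h2 : x ^ (i + 1) * (1 - x ^ (j - i)) = 0 := by
        rw [mul_sub, mul_one, ← pow_add]
        have : i + 1 + (j - i) = j + 1 := by omega
        rw [this, h, sub_self]
      rw [pow_succ (1 - x ^ (j - i)) i]
      linear_combination (1 - x ^ (j - i)) ^ i * h2
    have h3 := eq_zero_of_pow_eq_zero h1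
    linear_combination -h3
  rcases Nat.lt_or_gt_of_ne hij with h1 | h1
  · exact key i j h1 h
  · exact key j i h1 h.symm

/-- the triples -/
def trip (R : Type*) [CommRing R] [Fintype R] [DecidableEq R] : Finset ((R × R) × Rˣ) :=
  univ.filter (fun t => t.1.1 * t.1.1 = t.1.1 ∧ t.1.2 * (1 - t.1.1) = 1 - t.1.1)

theorem trip_surj (x y : R) (h : ∃ a b : R, a * x + b * y = 1) :
    ∃ t ∈ trip R, ((t.2 : R) * t.1.1, (t.2 : R) * t.1.2) = (x, y) := by
  obtain ⟨a, b, hab⟩ := h
  obtain ⟨c, hc, hx⟩ := exists_pow x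
  obtain ⟨c', rfl⟩ : ∃ c', c = c' + 1 := ⟨c - 1, by omega⟩
  set f := x ^ (c' + 1) with hf
  have hfx : f * x = x := by rw [hf, ← pow_succ]; exact hx
  have hff : f * f = f := by
    rw [hf, pow_succ x c']
    have e : x ^ c' * x * (x ^ c' * x) = x ^ c' * (x ^ (c' + 1) * x) := by ring
    rw [e, ← hf, hfx]
  have hxf : x * (x ^ c' * f) = f := by
    have e : x * (x ^ c' * f) = x ^ (c' + 1) * f := by ring
    rw [e, ← hf, hff]
  have hxe : x * (1 - f) = 0 := by linear_combination -hfx
  have hfe : f * (1 - f) = 0 := by linear_combination -hff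
  have hye : (1 - f) * b * y = 1 - f := by linear_combination (1 - f) * hab - a * hxe
  have hee : (1 - f) * (1 - f) = 1 - f := by linear_combination hff
  have hu : (x + (1 - f) * y) * (x ^ c' * f + (1 - f) * b) = 1 := by
    linear_combination hxf + b * hxe + y * x ^ c' * hfe + (1 - f) * hye + hee
  have hu' : (x ^ c' * f + (1 - f) * b) * (x + (1 - f) * y) = 1 := by rw [mul_comm]; exact hu
  refine ⟨((f, y * (x ^ c' * f + (1 - f) * b)),
    ⟨x + (1 - f) * y, x ^ c' * f + (1 - f) * b, hu, hu'⟩), ?_, ?_⟩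
  · unfold trip
    rw [mem_filter]
    refine ⟨mem_univ _, hff, ?_⟩
    simp only
    linear_combination y * x ^ c' * hfe + (1 - f) * hye + hee
  · simp only [Units.val_mk]
    apply Prod.ext
    · simp only
      linear_combination hfx + y * hfe
    · simp only
      linear_combination y * hu

theorem trip_inj : Set.InjOn (fun t : (R × R) × Rˣ => ((t.2 : R) * t.1.1, (t.2 : R) * t.1.2))
    (trip R : Set ((R × R) × Rˣ)) := by
  rintro ⟨⟨f, y⟩, u⟩ h1 ⟨⟨g, z⟩, v⟩ h2 h
  simp only [trip, coe_filter, mem_univ, true_and, Set.mem_setOf_eq] at h1 h2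
  simp only [Prod.mk.injEq] at h
  obtain ⟨hf, hy⟩ := h1
  obtain ⟨hg, hz⟩ := h2
  obtain ⟨e1, e2⟩ := h
  have k1 : f * (1 - g) = 0 := by
    have : (u : R) * (f * (1 - g)) = 0 := by linear_combination (1 - g) * e1 - (v : R) * hg
    have h3 := congrArg (fun w => ((u⁻¹ : Rˣ) : R) * w) this
    simpa using h3
  have k2 : g * (1 - f) = 0 := by
    have : (v : R) * (g * (1 - f)) = 0 := by linear_combination -(1 - f) * e1 - (u : R) * hf
    have h3 := congrArg (fun w => ((v⁻¹ : Rˣ) : R) * w) this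
    simpa using h3
  have hfg : f = g := by linear_combination k1 - k2
  subst hfg
  have huv : (u : R) = v := by
    linear_combination e1 + (1 - f) * e2 - (u : R) * hy + (v : R) * hz
  have huv' : u = v := Units.ext huv
  subst huv'
  have : y = z := by
    have h3 := congrArg (fun w => ((u⁻¹ : Rˣ) : R) * w) e2
    simpa using h3
  rw [this]

/-- sum over primitive pairs -/
theorem sum_orbits {M : Type*} [AddCommMonoid M] (F : R → R → M)
    (h0 : ∀ x y, (¬ ∃ a b : R, a * x + b * y = 1) → F x y = 0) :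
    ∑ x, ∑ y, F x y = ∑ t ∈ trip R, F ((t.2 : R) * t.1.1) ((t.2 : R) * t.1.2) := by
  classical
  have h1 : ∑ x, ∑ y, F x y = ∑ p : R × R, F p.1 p.2 := by
    rw [Fintype.sum_prod_type]
  rw [h1]
  have h2 : ∑ t ∈ trip R, F ((t.2 : R) * t.1.1) ((t.2 : R) * t.1.2) =
      ∑ p ∈ (trip R).image (fun t : (R × R) × Rˣ => ((t.2 : R) * t.1.1, (t.2 : R) * t.1.2)),
        F p.1 p.2 := by
    rw [Finset.sum_image (fun a ha b hb h => trip_inj ha hb h)]
  rw [h2]
  symm
  apply Finset.sum_subset (subset_univ _)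
  intro p _ hp
  apply h0
  intro h
  apply hp
  obtain ⟨t, ht, e⟩ := trip_surj p.1 p.2 h
  exact mem_image.mpr ⟨t, ht, e⟩

end

end Pool.Agent.N156.HT
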