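import Pool.Agent.N156.HT.H1
import Pool.Agent.N911.K4

/-! The sum of the form `(1, n, 1)` with a quadratic character as a sum over orbits. -/

namespace Pool.Agent.N156.HT

open Finset Pool.Agent.N911

/-- Jacobi character -/
def chJ (m : ℕ) (v : ZMod m) : ℤ := jacobiSym (v.val : ℤ) m

section

variable {m : ℕ} [NeZero m]

theorem chJ_int (z : ℤ) : chJ m (z : ZMod m) = jacobiSym z m := by
  unfold chJ
  rw [ZMod.val_intCast, ← jacobiSym.mod_left]

theorem chJ_nat (z : ℕ) : chJ m (z : ZMod m) = jacobiSym (z : ℤ) m := by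
  have := chJ_int (m := m) (z : ℤ)
  rwa [Int.cast_natCast] at this

theorem chJ_mul (x y : ZMod m) : chJ m (x * y) = chJ m x * chJ m y := by
  have e : x * y = (((x.val * y.val : ℕ)) : ZMod m) := by
    push_cast
    rw [ZMod.natCast_zmod_val, ZMod.natCast_zmod_val]
  rw [e, chJ_nat]
  unfold chJ
  push_cast
  rw [jacobiSym.mul_left]

theorem chJ_unit_sq (u : (ZMod m)ˣ) : chJ m (u : ZMod m) * chJ m (u : ZMod m) = 1 := by
  have h : IsCoprime ((u : ZMod m).val : ℤ) (m : ℤ) :=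
    Nat.isCoprime_iff_coprime.mpr (ZMod.val_coe_unit_coprime u)
  unfold chJ
  rcases jacobiSym.eq_one_or_neg_one (b := m) (a := ((u : ZMod m).val : ℤ))
    (Int.isCoprime_iff_gcd_eq_one.mp h) with h1 | h1 <;> rw [h1] <;> norm_num

theorem chJ_nonunit {x : ZMod m} (h : ¬ IsUnit x) : chJ m x = 0 := by
  unfold chJ
  rw [jacobiSym.eq_zero_iff]
  refine ⟨NeZero.ne m, ?_⟩
  intro h1
  apply h
  have h2 : Nat.Coprime x.val m := h1
  have := (ZMod.isUnit_iff_coprime x.val m).mpr h2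
  rwa [ZMod.natCast_zmod_val] at this

/-- the orbit sum of the weight -/
noncomputable def Wt (f y : ZMod m) : ℤ := ∑ u : (ZMod m)ˣ, wE ((u : ZMod m) * f) ((u : ZMod m) * y)

/-- the points -/
def pts (m : ℕ) [NeZero m] : Finset (ZMod m × ZMod m) :=
  univ.filter (fun t => t.1 * t.1 = t.1 ∧ t.2 * (1 - t.1) = 1 - t.1)

theorem SE_orbit [IsReduced (ZMod m)] (B C : ZMod m) :
    SE (chJ m) 1 B C = ∑ t ∈ pts m, chJ m (1 * t.1 ^ 2 + B * (t.1 * t.2) - C * t.2 ^ 2) *
      Wt t.1 t.2 := by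
  classical
  unfold SE
  simp only [Int.cast_id]
  rw [sum_orbits (R := ZMod m) (F := fun x y => chJ m (1 * x ^ 2 + B * (x * y) - C * y ^ 2) *
    wE x y)]
  · have h1 : trip (ZMod m) = (pts m) ×ˢ (univ : Finset (ZMod m)ˣ) := by
      ext ⟨⟨f, y⟩, u⟩
      simp [trip, pts]
    rw [h1, Finset.sum_product]
    apply Finset.sum_congr rfl
    rintro ⟨f, y⟩ _
    simp only
    unfold Wt
    rw [Finset.mul_sum]
    apply Finset.sum_congr rfl
    intro u _
    have e : (1 : ZMod m) * ((u : ZMod m) * f) ^ 2 + B * (((u : ZMod m) * f) * ((u : ZMod m) * y)) -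
      C * ((u : ZMod m) * y) ^ 2 = ((u : ZMod m) * u) * (1 * f ^ 2 + B * (f * y) - C * y ^ 2) := by
      ring
    rw [e, chJ_mul, chJ_mul, chJ_unit_sq, one_mul]
  · intro x y h
    rw [chJ_nonunit, zero_mul]
    rintro ⟨w, hw⟩
    apply h
    refine ⟨((w⁻¹ : (ZMod m)ˣ) : ZMod m) * (x + B * y), -((w⁻¹ : (ZMod m)ˣ) : ZMod m) * (C * y), ?_⟩
    have h1 : ((w⁻¹ : (ZMod m)ˣ) : ZMod m) * (w : ZMod m) = 1 := by simp
    rw [hw] at h1
    linear_combination h1

theorem wE_neg2 (x y : ZMod m) : wE (-x) (-y) = wE x y := by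
  have hs : wE (-x) (-y) = -wE (-x) y := wE_neg (-x) y
  have hc : ∀ a b : ZMod m, wE a b = wE b a := by
    intro a b
    unfold wE
    by_cases ha : a = 0 <;> by_cases hb : b = 0 <;> simp [ha, hb, mul_comm]
  rw [hs, hc (-x) y, wE_neg, hc y x, neg_neg]

theorem Wt_refl {f u : ZMod m} (hf : f * f = f) :
    Wt f ((1 - f) - f * u) = - Wt f ((1 - f) + f * u) := by
  unfold Wt
  have h0 : (2 * f - 1) * (2 * f - 1) = 1 := by linear_combination 4 * hf
  let w : (ZMod m)ˣ := ⟨2 * f - 1, 2 * f - 1, h0, h0⟩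
  rw [← Finset.sum_neg_distrib]
  rw [← Equiv.sum_comp (Equiv.mulRight w)]
  apply Finset.sum_congr rfl
  intro v _
  have e1 : (((Equiv.mulRight w) v : (ZMod m)ˣ) : ZMod m) = v * (2 * f - 1) := by
    simp [w]
  rw [e1]
  have e2 : (v : ZMod m) * (2 * f - 1) * f = v * f := by linear_combination 2 * (v : ZMod m) * hf
  have e3 : (v : ZMod m) * (2 * f - 1) * ((1 - f) - f * u) = -((v : ZMod m) * ((1 - f) + f * u)) := by
    linear_combination (-2 * (v : ZMod m) - 2 * (v : ZMod m) * u) * hf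
  rw [e2, e3, wE_neg]

/-- half of the orbit sum -/
def Wh (m : ℕ) (f y : ℕ) : ℤ :=
  ∑ v ∈ (range ((m + 1) / 2)).filter (fun v => Nat.Coprime v m),
    (2 * ((v * f % m : ℕ) : ℤ) - m) * (2 * ((v * y % m : ℕ) : ℤ) - m)

theorem sum_units (g : ZMod m → ℤ) :
    ∑ u : (ZMod m)ˣ, g (u : ZMod m) =
    ∑ v ∈ (range m).filter (fun v => Nat.Coprime v m), g (v : ZMod m) := by
  apply Finset.sum_bij (fun (u : (ZMod m)ˣ) _ => (u : ZMod m).val)
  · intro u _
    exact mem_filter.mpr ⟨mem_range.mpr (ZMod.val_lt _), ZMod.val_coe_unit_coprime u⟩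
  · intro u _ v _ h
    exact Units.ext (ZMod.val_injective m h)
  · intro v hv
    obtain ⟨h1, h2⟩ := mem_filter.mp hv
    refine ⟨ZMod.unitOfCoprime v h2, mem_univ _, ?_⟩
    rw [ZMod.coe_unitOfCoprime, ZMod.val_natCast, Nat.mod_eq_of_lt (mem_range.mp h1)]
  · intro u _
    rw [ZMod.natCast_zmod_val]

theorem cop_sub {v : ℕ} (h : v ≤ m) (h2 : Nat.Coprime v m) : Nat.Coprime (m - v) m := by
  rw [Nat.coprime_comm] at h2 ⊢
  exact (Nat.coprime_self_sub_right h).mpr h2

theorem sum_half (hm : m % 2 = 1) (hm1 : 1 < m) (g : ZMod m → ℤ) (hg : ∀ x, g (-x) = g x) :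
    ∑ v ∈ (range m).filter (fun v => Nat.Coprime v m), g (v : ZMod m) =
    2 * ∑ v ∈ (range ((m + 1) / 2)).filter (fun v => Nat.Coprime v m), g (v : ZMod m) := by
  have h1 : (range m).filter (fun v => Nat.Coprime v m) =
      (range ((m + 1) / 2)).filter (fun v => Nat.Coprime v m) ∪
      ((range m).filter (fun v => Nat.Coprime v m)).filter (fun v => (m + 1) / 2 ≤ v) := by
    ext v
    simp only [mem_union, mem_filter, mem_range]
    constructor
    · rintro ⟨h1, h2⟩
      rcases lt_or_ge v ((m + 1) / 2) with h | h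
      · exact Or.inl ⟨h, h2⟩
      · exact Or.inr ⟨⟨h1, h2⟩, h⟩
    · rintro (⟨h1, h2⟩ | ⟨⟨h1, h2⟩, _⟩)
      · exact ⟨by omega, h2⟩
      · exact ⟨h1, h2⟩
  have hd : Disjoint ((range ((m + 1) / 2)).filter (fun v => Nat.Coprime v m))
      (((range m).filter (fun v => Nat.Coprime v m)).filter (fun v => (m + 1) / 2 ≤ v)) := by
    rw [Finset.disjoint_left]
    intro v hv hv'
    simp only [mem_filter, mem_range] at hv hv'
    omega
  rw [h1, Finset.sum_union hd, two_mul]
  congr 1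
  apply Finset.sum_bij' (fun v _ => m - v) (fun v _ => m - v)
  · intro v hv
    simp only [mem_filter, mem_range] at hv ⊢
    obtain ⟨⟨h2, h3⟩, h4⟩ := hv
    refine ⟨by omega, ?_⟩
    exact cop_sub (by omega) h3
  · intro v hv
    simp only [mem_filter, mem_range] at hv ⊢
    obtain ⟨h2, h3⟩ := hv
    have hv0 : v ≠ 0 := by
      rintro rfl
      rw [Nat.coprime_zero_left] at h3
      omega
    refine ⟨⟨by omega, ?_⟩, by omega⟩
    exact cop_sub (by omega) h3
  · intro v hv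
    simp only [mem_filter, mem_range] at hv
    omega
  · intro v hv
    simp only [mem_filter, mem_range] at hv
    omega
  · intro v hv
    simp only [mem_filter, mem_range] at hv
    rw [Nat.cast_sub (by omega), ZMod.natCast_self, zero_sub, hg]

theorem Wt_eq (hm : m % 2 = 1) (hm1 : 1 < m) {f y : ℕ} (hf : (f : ZMod m) ≠ 0)
    (hy : (y : ZMod m) ≠ 0) : Wt (f : ZMod m) (y : ZMod m) = 2 * Wh m f y := by
  unfold Wt
  rw [sum_units (fun v => wE (v * (f : ZMod m)) (v * (y : ZMod m)))]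
  refine (sum_half hm hm1 (fun v : ZMod m => wE (v * (f : ZMod m)) (v * (y : ZMod m))) ?_).trans ?_
  swap
  · congr 1
    unfold Wh
    apply Finset.sum_congr rfl
    intro v hv
    obtain ⟨hv1, hv2⟩ := mem_filter.mp hv
    have hu : IsUnit (v : ZMod m) := (ZMod.isUnit_iff_coprime v m).mpr hv2
    have h1 : (v : ZMod m) * f ≠ 0 := fun h => hf (by simpa using (hu.mul_right_eq_zero.mp h))
    have h2 : (v : ZMod m) * y ≠ 0 := fun h => hy (by simpa using (hu.mul_right_eq_zero.mp h))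
    unfold wE
    rw [if_neg (by tauto)]
    have e1 : ((v : ZMod m) * f).val = v * f % m := by
      rw [← Nat.cast_mul, ZMod.val_natCast]
    have e2 : ((v : ZMod m) * y).val = v * y % m := by
      rw [← Nat.cast_mul, ZMod.val_natCast]
    rw [e1, e2]
  · intro x
    have e1 : -x * (f : ZMod m) = -(x * f) := by ring
    have e2 : -x * (y : ZMod m) = -(x * y) := by ring
    rw [e1, e2, wE_neg2]

theorem Wt_zero (f y : ZMod m) (h : f = 0 ∨ y = 0) : Wt f y = 0 := by
  unfold Wt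
  apply Finset.sum_eq_zero
  intro u _
  unfold wE
  rw [if_pos]
  rcases h with h | h <;> simp [h]

end

end Pool.Agent.N156.HT
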