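import Pool.Agent.H419R2.E1
import Pool.Agent.N911.K1

/-! Kernel-friendly evaluation of the sums of the form `(1, n, 1)` modulo `256`. -/

namespace Pool.Agent.N156.HT

open H419R2 Pool.Agent.N911

/-- axes of a packed tensor (lanes of 44 bits) -/
inductive Ax where
  | nil : Ax
  | cons (e l : ℕ) (r : Ax) : Ax

/-- number of lanes -/
noncomputable def Ax.sz (a : Ax) : ℕ := @Ax.rec (fun _ => ℕ) 1 (fun _ l _ ih => Nat.mul l ih) a

/-- packing of a function of the base point -/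
noncomputable def pk (g : ℕ → ℕ) (a : Ax) : ℕ → ℕ :=
  @Ax.rec (fun _ => ℕ → ℕ) (fun b => g b)
    (fun e l r ih b => @Nat.rec (fun _ => ℕ) 0
      (fun u acc => Nat.add acc (Nat.mul (force (Nat.add b (Nat.mul e u)) ih)
        (Nat.pow 2 (Nat.mul (Nat.mul 44 (Ax.sz r)) u)))) l) a

/-- constant lanes -/
def msk (c n : ℕ) : ℕ :=
  Nat.mul c (Nat.div (Nat.sub (Nat.pow 2 (Nat.mul 44 n)) 1) 17592186044415)

/-- weight modulo 256 -/
def bw (m F v : ℕ) : ℕ :=
  Nat.mod (Nat.add (Nat.mul 2 (Nat.mod (Nat.mul v F) m)) (Nat.sub 32768 m)) 256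

/-- term of the sum -/
def tmV (m F Y mk v : ℕ) : ℕ :=
  @Nat.rec (fun _ => ℕ) 0 (fun _ _ =>
    Nat.mul (bw m F v) (Nat.add (Nat.div (Nat.land (Nat.mul v Y) mk) 536870912) 1))
    (Nat.sub 2 (Nat.gcd v m))

/-- sum of the terms with index in `[v, v + 2 ^ k)` and below `bd` -/
def sV (m F Y mk bd k : ℕ) : ℕ → ℕ :=
  @Nat.rec (fun _ => ℕ → ℕ)
    (fun v => @Nat.rec (fun _ => ℕ) 0 (fun _ _ => tmV m F Y mk v) (Nat.sub bd v))
    (fun k ih v => @Nat.rec (fun _ => ℕ) 0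
      (fun _ _ => Nat.add (ih v) (force (Nat.add v (Nat.pow 2 k)) ih)) (Nat.sub bd v)) k

/-- multiple of the number `m` inverse -/
def yh (m y : ℕ) : ℕ := Nat.add (Nat.div (Nat.mul (Nat.mod y m) 536870912) m) 1

/-- affine part -/
def af (m A1 A0 y : ℕ) : ℕ :=
  @Nat.rec (fun _ => ℕ) 0 (fun _ _ => Nat.add (Nat.mul A1 (Nat.mod y m)) A0) (Nat.mod y m)

/-- check of a table of weights -/
noncomputable def chkW (m F b0 : ℕ) (ax : Ax) (A1 A0 W : ℕ) : Bool :=
  force (Ax.sz ax) (fun n =>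
  force (Nat.add (Nat.mul (pk (yh m) ax b0) (Nat.pow 2 88))
    (Nat.mul 536870912 17592186044416)) (fun Y =>
  force (msk 17591649173504 (Nat.add n 2)) (fun mk =>
  force (sV m F Y mk (Nat.div (Nat.add m 1) 2) 14 0) (fun S =>
    cj (Nat.beq (Nat.mod (Nat.mul 2 (Nat.mod (Nat.div S 17592186044416) 17592186044416)) 256) A1)
    (cj (Nat.beq (Nat.mod (Nat.mul (Nat.sub 32768 m) (Nat.mod S 17592186044416)) 256) A0)
    (Nat.beq (Nat.land (Nat.add (Nat.mul (Nat.mod (Nat.sub 65536 (Nat.mul 2 m)) 256)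
      (Nat.div S (Nat.pow 2 88))) (pk (af m A1 A0) ax b0)) (msk 255 n)) W))))))

/-- trees of packed tensors; a leaf has its number of lanes -/
inductive Tr where
  | leaf (n T : ℕ) : Tr
  | node (a b : Tr) : Tr

/-- table of the symbols of `1 + n u - u ^ 2` -/
def mkM (l NR n : ℕ) : ℕ :=
  @Nat.rec (fun _ => ℕ) 0 (fun u acc => Nat.add acc (Nat.mul (Nat.mod (Nat.shiftRight NR
    (Nat.mod (Nat.add (Nat.add 1 (Nat.mul n u)) (Nat.mul u (Nat.sub l u))) l)) 2) (Nat.pow 2 u))) l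

/-- contraction of one axis -/
def nv (l M sg S mk T U : ℕ) : ℕ :=
  Nat.land (Nat.add (Nat.mul sg U) (@Nat.rec (fun _ => ℕ) 0 (fun u acc =>
    Nat.add acc (Nat.mul (Nat.add 1 (Nat.mul 254 (Nat.mod (Nat.shiftRight M u) 2)))
      (Nat.mod (Nat.shiftRight T (Nat.mul S u)) (Nat.pow 2 S)))) l)) mk

/-- contraction of one axis of a tree -/
noncomputable def zipC (l M sg : ℕ) (A : Tr) : Tr → (Tr → Bool) → Bool :=
  @Tr.rec (fun _ => Tr → (Tr → Bool) → Bool)
    (fun _ T B k => @Tr.rec (fun _ => Bool) (fun n U =>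
      force (nv l M sg (Nat.mul 44 n) (msk 255 n) T U) (fun V => k (Tr.leaf n V)))
      (fun _ _ _ _ => false) B)
    (fun _ _ iha ihb B k => @Tr.rec (fun _ => Bool) (fun _ _ => false)
      (fun c d _ _ => iha c (fun x => ihb d (fun y => k (Tr.node x y)))) B) A

/-- levels -/
inductive Lv where
  | nil : Lv
  | cons (l NR sg : ℕ) (r : Lv) : Lv

/-- `n ^ 2 + 4` is a non-residue -/
def inr (l NR n : ℕ) : Bool :=
  Nat.beq (Nat.mod (Nat.shiftRight NR (Nat.mod (Nat.add (Nat.mul n n) 4) l)) 2) 1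

/-- evaluation for all inert classes -/
noncomputable def ev (BT : ℕ) (L : Lv) : Tr → ℕ → Bool :=
  @Lv.rec (fun _ => Tr → ℕ → Bool)
    (fun t i => @Tr.rec (fun _ => Bool)
      (fun _ V => Nat.beq V (Nat.mul 128 (Nat.mod (Nat.shiftRight BT i) 2)))
      (fun _ _ _ _ => false) t)
    (fun l NR sg _ ih t i => @Tr.rec (fun _ => Bool) (fun _ _ => false)
      (fun A B _ _ => allN l (fun n => imp (inr l NR n) (force (mkM l NR n) (fun M =>
        zipC l M sg A B (fun t' => force (Nat.add (Nat.mul i l) n) (fun j => ih t' j)))))) t) L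

end Pool.Agent.N156.HT
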