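import Pool.Agent.N156.HT.H3
import Mathlib

/-! Packed tensors. -/

namespace Pool.Agent.N156.HT

open Finset H419R2 Pool.Agent.N911

theorem rec_sum (f : ℕ → ℕ) (l : ℕ) :
    @Nat.rec (fun _ => ℕ) 0 (fun u acc => Nat.add acc (f u)) l = ∑ u ∈ range l, f u := by
  induction l with
  | zero => rfl
  | succ l ih => rw [Finset.sum_range_succ, ← ih]; rfl

/-- packing -/
noncomputable def P (a : ℕ → ℕ) : Ax → ℕ → ℕ
  | .nil, b => a b
  | .cons e l r, b => ∑ u ∈ range l, P a r (b + e * u) * 2 ^ (44 * r.sz * u)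

theorem sz_nil : Ax.sz .nil = 1 := rfl

theorem sz_cons (e l : ℕ) (r : Ax) : Ax.sz (.cons e l r) = l * r.sz := rfl

theorem pk_eq (g : ℕ → ℕ) (a : Ax) : ∀ b, pk g a b = P g a b := by
  induction a with
  | nil => intro b; rfl
  | cons e l r ih =>
    intro b
    have h : pk g (.cons e l r) b = @Nat.rec (fun _ => ℕ) 0
      (fun u acc => Nat.add acc (Nat.mul (force (Nat.add b (Nat.mul e u)) (pk g r))
        (Nat.pow 2 (Nat.mul (Nat.mul 44 (Ax.sz r)) u)))) l := rfl
    rw [h, rec_sum]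
    simp only [P]
    apply Finset.sum_congr rfl
    intro u _
    rw [force_eq, ih]
    rfl

theorem tb_add {s x : ℕ} (hx : x < 2 ^ s) (y i : ℕ) :
    (x + y * 2 ^ s).testBit i = if i < s then x.testBit i else y.testBit (i - s) := by
  rw [add_comm, mul_comm]
  exact Nat.testBit_two_pow_mul_add y hx i

theorem land_add {s a b : ℕ} (c d : ℕ) (ha : a < 2 ^ s) (hb : b < 2 ^ s) :
    Nat.land (a + c * 2 ^ s) (b + d * 2 ^ s) = Nat.land a b + Nat.land c d * 2 ^ s := by
  change (a + c * 2 ^ s) &&& (b + d * 2 ^ s) = (a &&& b) + (c &&& d) * 2 ^ s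
  apply Nat.eq_of_testBit_eq
  intro i
  rw [Nat.testBit_and, tb_add ha, tb_add hb, tb_add (lt_of_le_of_lt Nat.and_le_left ha)]
  split_ifs <;> rw [Nat.testBit_and]

theorem sum_lt {s : ℕ} {g : ℕ → ℕ} (l : ℕ) (h : ∀ u < l, g u < 2 ^ s) :
    ∑ u ∈ range l, g u * 2 ^ (s * u) < 2 ^ (s * l) := by
  induction l with
  | zero => simp
  | succ l ih =>
    rw [Finset.sum_range_succ]
    have h1 := ih (fun u hu => h u (by omega))
    have h2 := h l (by omega)
    have h3 : 2 ^ (s * (l + 1)) = 2 ^ s * 2 ^ (s * l) := by rw [← pow_add]; congr 1; ring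
    rw [h3]
    have h4 : (g l + 1) * 2 ^ (s * l) ≤ 2 ^ s * 2 ^ (s * l) := Nat.mul_le_mul_right _ h2
    nlinarith

theorem land_sum {s : ℕ} {g h : ℕ → ℕ} (l : ℕ) (hg : ∀ u < l, g u < 2 ^ s)
    (hh : ∀ u < l, h u < 2 ^ s) :
    Nat.land (∑ u ∈ range l, g u * 2 ^ (s * u)) (∑ u ∈ range l, h u * 2 ^ (s * u)) =
      ∑ u ∈ range l, Nat.land (g u) (h u) * 2 ^ (s * u) := by
  induction l with
  | zero => simp only [Finset.range_zero, Finset.sum_empty]; rfl
  | succ l ih =>
    rw [Finset.sum_range_succ, Finset.sum_range_succ, Finset.sum_range_succ,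
      land_add _ _ (sum_lt l (fun u hu => hg u (by omega))) (sum_lt l (fun u hu => hh u (by omega))),
      ih (fun u hu => hg u (by omega)) (fun u hu => hh u (by omega))]

theorem P_lt {a : ℕ → ℕ} (ha : ∀ y, a y < 2 ^ 44) (ax : Ax) : ∀ b, P a ax b < 2 ^ (44 * ax.sz) := by
  induction ax with
  | nil => intro b; simpa [P, sz_nil] using ha b
  | cons e l r ih =>
    intro b
    simp only [P]
    have := sum_lt (s := 44 * r.sz) (g := fun u => P a r (b + e * u)) l (fun u _ => ih _)
    rw [sz_cons]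
    have e1 : 44 * (l * r.sz) = 44 * r.sz * l := by ring
    rw [e1]
    exact this

theorem P_land {a c : ℕ → ℕ} (ha : ∀ y, a y < 2 ^ 44) (hc : ∀ y, c y < 2 ^ 44) (ax : Ax) :
    ∀ b, Nat.land (P a ax b) (P c ax b) = P (fun y => Nat.land (a y) (c y)) ax b := by
  induction ax with
  | nil => intro b; rfl
  | cons e l r ih =>
    intro b
    simp only [P]
    rw [land_sum l (fun u _ => P_lt ha r _) (fun u _ => P_lt hc r _)]
    apply Finset.sum_congr rfl
    intro u _
    rw [ih]

theorem P_add (a c : ℕ → ℕ) (ax : Ax) : ∀ b, P (fun y => a y + c y) ax b = P a ax b + P c ax b := by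
  induction ax with
  | nil => intro b; rfl
  | cons e l r ih =>
    intro b
    simp only [P]
    rw [← Finset.sum_add_distrib]
    apply Finset.sum_congr rfl
    intro u _
    rw [ih, add_mul]

theorem P_mul (k : ℕ) (a : ℕ → ℕ) (ax : Ax) : ∀ b, P (fun y => k * a y) ax b = k * P a ax b := by
  induction ax with
  | nil => intro b; rfl
  | cons e l r ih =>
    intro b
    simp only [P]
    rw [Finset.mul_sum]
    apply Finset.sum_congr rfl
    intro u _
    rw [ih, mul_assoc]

theorem P_zero (ax : Ax) : ∀ b, P (fun _ => 0) ax b = 0 := by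
  induction ax with
  | nil => intro b; rfl
  | cons e l r ih =>
    intro b
    simp only [P]
    apply Finset.sum_eq_zero
    intro u _
    rw [ih, zero_mul]

theorem P_sum {ι : Type*} (s : Finset ι) (f : ι → ℕ → ℕ) (ax : Ax) (b : ℕ) :
    P (fun y => ∑ i ∈ s, f i y) ax b = ∑ i ∈ s, P (f i) ax b := by
  classical
  induction s using Finset.induction_on with
  | empty => simp only [Finset.sum_empty]; exact P_zero ax b
  | insert i s hi ih =>
    simp only [Finset.sum_insert hi]
    rw [P_add, ih]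

theorem P_shift (a : ℕ → ℕ) (e : ℕ) (ax : Ax) :
    ∀ b, P a ax (b + e) = P (fun y => a (y + e)) ax b := by
  induction ax with
  | nil => intro b; rfl
  | cons e' l r ih =>
    intro b
    simp only [P]
    apply Finset.sum_congr rfl
    intro u _
    rw [← ih, add_right_comm]

theorem P_congr {a c : ℕ → ℕ} (h : ∀ y, a y = c y) (ax : Ax) (b : ℕ) : P a ax b = P c ax b := by
  rw [funext h]

/-- geometric sum -/
def G (n : ℕ) : ℕ := ∑ i ∈ range n, 2 ^ (44 * i)

theorem G_mul (n : ℕ) : G n * 17592186044415 + 1 = 2 ^ (44 * n) := by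
  induction n with
  | zero => rfl
  | succ n ih =>
    unfold G at *
    rw [Finset.sum_range_succ, add_mul]
    have : 2 ^ (44 * (n + 1)) = 2 ^ (44 * n) * 17592186044416 := by
      rw [mul_add, pow_add]; norm_num
    rw [this, ← ih]
    ring

theorem msk_eq (c n : ℕ) : msk c n = c * G n := by
  unfold msk
  change c * ((2 ^ (44 * n) - 1) / 17592186044415) = c * G n
  rw [← G_mul n, Nat.add_sub_cancel, Nat.mul_div_cancel _ (by norm_num)]

theorem G_add (a b : ℕ) : G (a + b) = G a + G b * 2 ^ (44 * a) := by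
  unfold G
  rw [Finset.sum_range_add, Finset.sum_mul]
  congr 1
  apply Finset.sum_congr rfl
  intro i _
  rw [← pow_add]
  congr 1
  ring

theorem G_sum (s l : ℕ) : G (l * s) = ∑ u ∈ range l, G s * 2 ^ (44 * s * u) := by
  induction l with
  | zero => simp [G]
  | succ l ih =>
    rw [add_mul, one_mul, G_add, Finset.sum_range_succ, ih]
    congr 3
    ring

theorem P_const (c : ℕ) (ax : Ax) : ∀ b, P (fun _ => c) ax b = c * G ax.sz := by
  induction ax with
  | nil => intro b; simp [P, sz_nil, G]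
  | cons e l r ih =>
    intro b
    simp only [P]
    rw [sz_cons, G_sum, Finset.mul_sum]
    apply Finset.sum_congr rfl
    intro u _
    rw [ih, mul_assoc]

theorem P_msk {a : ℕ → ℕ} (c : ℕ) (hc : c < 2 ^ 44) (ha : ∀ y, a y < 2 ^ 44) (ax : Ax) (b : ℕ) :
    Nat.land (P a ax b) (msk c ax.sz) = P (fun y => Nat.land (a y) c) ax b := by
  rw [msk_eq, ← P_const c ax b, P_land ha (fun _ => hc)]

theorem land_255 (a : ℕ) : Nat.land a 255 = a % 256 := Nat.and_two_pow_sub_one_eq_mod a 8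

theorem land_hi {a : ℕ} (h : a < 2 ^ 44) :
    Nat.land a 17591649173504 = a / 536870912 * 536870912 := by
  have h1 : a = a % 2 ^ 29 + a / 2 ^ 29 * 2 ^ 29 := by omega
  have h2 : (17591649173504 : ℕ) = 0 + 32767 * 2 ^ 29 := by norm_num
  have h3 : a / 2 ^ 29 < 2 ^ 15 := by omega
  conv_lhs => rw [h1, h2]
  rw [land_add _ _ (Nat.mod_lt _ (by norm_num)) (by norm_num)]
  have h4 : Nat.land (a % 2 ^ 29) 0 = 0 := Nat.and_zero _
  have h5 : Nat.land (a / 2 ^ 29) 32767 = a / 2 ^ 29 := by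
    have := Nat.and_two_pow_sub_one_eq_mod (a / 2 ^ 29) 15
    change Nat.land (a / 2 ^ 29) 32767 = _ at this
    rw [this, Nat.mod_eq_of_lt h3]
  rw [h4, h5, zero_add]
  norm_num

/-- segments -/
theorem seg_eq {a : ℕ → ℕ} (ha : ∀ y, a y < 2 ^ 44) (e l : ℕ) (r : Ax) (b u : ℕ) (hu : u < l) :
    Nat.mod (Nat.shiftRight (P a (.cons e l r) b) (Nat.mul (44 * r.sz) u)) (Nat.pow 2 (44 * r.sz)) =
      P a r (b + e * u) := by
  change (P a (.cons e l r) b >>> (44 * r.sz * u)) % 2 ^ (44 * r.sz) = _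
  rw [Nat.shiftRight_eq_div_pow]
  simp only [P]
  obtain ⟨k, rfl⟩ : ∃ k, l = u + (1 + k) := ⟨l - u - 1, by omega⟩
  rw [Finset.sum_range_add, Finset.sum_range_add]
  simp only [Finset.sum_range_one, add_zero]
  set s := 44 * r.sz with hs
  have h1 : ∑ x ∈ range k, P a r (b + e * (u + (1 + x))) * 2 ^ (s * (u + (1 + x))) =
      (∑ x ∈ range k, P a r (b + e * (u + (1 + x))) * 2 ^ (s * x)) * 2 ^ s * 2 ^ (s * u) := by
    rw [Finset.sum_mul, Finset.sum_mul]
    apply Finset.sum_congr rfl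
    intro x _
    have h2 : 2 ^ (s * (u + (1 + x))) = 2 ^ (s * x) * 2 ^ s * 2 ^ (s * u) := by
      rw [← pow_add, ← pow_add]; congr 1; ring
    rw [h2]
    ring
  rw [h1, ← add_mul, Nat.add_mul_div_right _ _ (by positivity),
    Nat.div_eq_of_lt (sum_lt u (fun v _ => by rw [hs]; exact P_lt ha r _)), zero_add,
    Nat.add_mul_mod_self_right]
  exact Nat.mod_eq_of_lt (by rw [hs]; exact P_lt ha r _)

end Pool.Agent.N156.HT
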