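import Pool.Agent.N156.HT.H4

/-! Soundness of the tables of weights. -/

namespace Pool.Agent.N156.HT

open Finset H419R2 Pool.Agent.N911

/-- the units below `m / 2` -/
def Vm (m : ℕ) : Finset ℕ := (range ((m + 1) / 2)).filter (fun v => Nat.Coprime v m)

/-- the weight modulo 256 -/
noncomputable def wz (m F y : ℕ) : ZMod 256 :=
  ∑ v ∈ Vm m, (2 * ((v * F % m : ℕ) : ZMod 256) - m) * (2 * ((v * y % m : ℕ) : ZMod 256) - m)

/-- the weight modulo 256 as a natural number -/
noncomputable def w8 (m F y : ℕ) : ℕ := if F % m = 0 ∨ y % m = 0 then 0 else (wz m F y).val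

theorem w8_lt (m F y : ℕ) : w8 m F y < 256 := by
  unfold w8
  split_ifs
  · norm_num
  · exact ZMod.val_lt _

theorem z256 : ((32768 : ℕ) : ZMod 256) = 0 := by decide

theorem bw_cast {m : ℕ} (hm : m < 32768) (F v : ℕ) :
    (bw m F v : ZMod 256) = 2 * ((v * F % m : ℕ) : ZMod 256) - m := by
  have : bw m F v = (2 * (v * F % m) + (32768 - m)) % 256 := rfl
  rw [this, ZMod.natCast_mod, Nat.cast_add, Nat.cast_sub hm.le, z256]
  push_cast
  ring

theorem bw_lt (m F v : ℕ) : bw m F v < 256 := Nat.mod_lt _ (by norm_num)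

theorem quot_eq {m v y : ℕ} (hm : 0 < m) (hv : v * m < 536870912) :
    v * yh m y / 536870912 = v * (y % m) / m := by
  have hy : yh m y = y % m * 536870912 / m + 1 := rfl
  rw [hy]
  set r := y % m with hr
  set t := r * 536870912 / m with ht
  have h1 : m * t ≤ r * 536870912 := by rw [ht]; exact Nat.mul_div_le _ _
  have h2 : r * 536870912 < m * (t + 1) := by
    rw [ht]; exact Nat.lt_mul_div_succ _ hm
  set q := v * r / m with hq
  have h3 : m * q ≤ v * r := by rw [hq]; exact Nat.mul_div_le _ _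
  have h4 : v * r < m * (q + 1) := by rw [hq]; exact Nat.lt_mul_div_succ _ hm
  apply Nat.div_eq_of_lt_le
  · -- q * 2^29 ≤ v (t+1)
    have : m * (q * 536870912) ≤ m * (v * (t + 1)) := by
      calc m * (q * 536870912) = m * q * 536870912 := by ring
        _ ≤ v * r * 536870912 := Nat.mul_le_mul_right _ h3
        _ = v * (r * 536870912) := by ring
        _ ≤ v * (m * (t + 1)) := Nat.mul_le_mul_left _ h2.le
        _ = m * (v * (t + 1)) := by ring
    exact Nat.le_of_mul_le_mul_left this hm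
  · have : m * (v * (t + 1)) < m * ((q + 1) * 536870912) := by
      have h5 : v * r + 1 ≤ m * (q + 1) := h4
      calc m * (v * (t + 1)) = v * (m * t) + v * m := by ring
        _ ≤ v * (r * 536870912) + v * m := Nat.add_le_add_right (Nat.mul_le_mul_left _ h1) _
        _ < v * (r * 536870912) + 536870912 := Nat.add_lt_add_left hv _
        _ = (v * r + 1) * 536870912 := by ring
        _ ≤ m * (q + 1) * 536870912 := Nat.mul_le_mul_right _ h5
        _ = m * ((q + 1) * 536870912) := by ring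
    exact Nat.lt_of_mul_lt_mul_left this

theorem yh_le {m y : ℕ} (hm : 0 < m) : yh m y ≤ 536870912 := by
  have hy : yh m y = y % m * 536870912 / m + 1 := rfl
  rw [hy]
  have h1 : y % m < m := Nat.mod_lt _ hm
  have : y % m * 536870912 / m < 536870912 := by
    rw [Nat.div_lt_iff_lt_mul hm]
    nlinarith
  omega

/-- the extended vector -/
theorem ext_land {m v : ℕ} (hm : 0 < m) (hv : v * m < 536870912) (hv2 : v < 32768)
    (ax : Ax) (b : ℕ) :
    Nat.div (Nat.land (Nat.mul v (P (yh m) ax b * 2 ^ 88 + 536870912 * 17592186044416))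
      (msk 17591649173504 (ax.sz + 2))) 536870912 =
      v * 2 ^ 44 + P (fun y => v * (y % m) / m) ax b * 2 ^ 88 := by
  have hl : ∀ y, v * yh m y < 2 ^ 44 := by
    intro y
    have := yh_le (m := m) (y := y) hm
    have h2 : v * yh m y ≤ v * 536870912 := Nat.mul_le_mul_left _ this
    omega
  have e1 : Nat.mul v (P (yh m) ax b * 2 ^ 88 + 536870912 * 17592186044416) =
      0 + (v * 2 ^ 29 + P (fun y => v * yh m y) ax b * 2 ^ 44) * 2 ^ 44 := by
    change v * (P (yh m) ax b * 2 ^ 88 + 536870912 * 17592186044416) = _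
    rw [P_mul]; ring
  have e2 : msk 17591649173504 (ax.sz + 2) = 17591649173504 +
      (17591649173504 + msk 17591649173504 ax.sz * 2 ^ 44) * 2 ^ 44 := by
    rw [msk_eq, msk_eq, add_comm ax.sz 2, G_add]
    have : G 2 = 1 + 2 ^ 44 := by simp [G, Finset.sum_range_succ]
    rw [this]; ring
  rw [e1, e2, land_add _ _ (by norm_num) (by norm_num), land_add _ _ (by omega) (by norm_num),
    P_msk _ (by norm_num) hl, land_hi (a := v * 2 ^ 29) (by omega)]
  have e3 : Nat.land 0 17591649173504 = 0 := Nat.zero_and _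
  have e4 : v * 2 ^ 29 / 536870912 * 536870912 = 536870912 * v := by
    rw [show (2 : ℕ) ^ 29 = 536870912 by norm_num, Nat.mul_div_cancel _ (by norm_num), mul_comm]
  have e5 : P (fun y => Nat.land (v * yh m y) 17591649173504) ax b =
      536870912 * P (fun y => v * (y % m) / m) ax b := by
    rw [← P_mul]
    apply P_congr
    intro y
    rw [land_hi (hl y), quot_eq hm hv, mul_comm]
  rw [e3, e4, e5]
  have e6 : 0 + (536870912 * v + 536870912 * P (fun y => v * (y % m) / m) ax b * 2 ^ 44) * 2 ^ 44 =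
      536870912 * (v * 2 ^ 44 + P (fun y => v * (y % m) / m) ax b * 2 ^ 88) := by ring
  rw [e6]
  exact Nat.mul_div_cancel_left _ (by norm_num)

theorem tmV_eq {m F v : ℕ} (hm : 1 < m) (hv : v * m < 536870912) (hv2 : v < 32768)
    (ax : Ax) (b : ℕ) :
    tmV m F (P (yh m) ax b * 2 ^ 88 + 536870912 * 17592186044416)
      (msk 17591649173504 (ax.sz + 2)) v =
    if Nat.Coprime v m then bw m F v * (1 + v * 2 ^ 44 + P (fun y => v * (y % m) / m) ax b * 2 ^ 88)
      else 0 := by
  unfold tmV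
  rw [ext_land (by omega) hv hv2]
  have hg : 0 < Nat.gcd v m := Nat.gcd_pos_of_pos_right _ (by omega)
  by_cases h : Nat.Coprime v m
  · rw [if_pos h]
    have h1 : Nat.gcd v m = 1 := h
    rw [h1]
    change bw m F v * _ = _
    congr 1
    change v * 2 ^ 44 + P (fun y => v * (y % m) / m) ax b * 2 ^ 88 + 1 = _
    ring
  · rw [if_neg h]
    have h1 : Nat.gcd v m ≠ 1 := h
    obtain ⟨k, hk⟩ : ∃ k, Nat.gcd v m = k + 2 := ⟨Nat.gcd v m - 2, by omega⟩
    have h2 : Nat.sub 2 (Nat.gcd v m) = 0 := by rw [hk]; change 2 - (k + 2) = 0; omega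
    rw [h2]
    rfl

theorem sub_rec (bd v x : ℕ) :
    @Nat.rec (fun _ => ℕ) 0 (fun _ _ => x) (Nat.sub bd v) = if v < bd then x else 0 := by
  split_ifs with h
  · obtain ⟨k, hk⟩ : ∃ k, bd - v = k + 1 := ⟨bd - v - 1, by omega⟩
    have : Nat.sub bd v = k + 1 := hk
    rw [this]
  · have : Nat.sub bd v = 0 := Nat.sub_eq_zero_of_le (by omega)
    rw [this]
    rfl

theorem sV_eq (m F Y mk bd : ℕ) (k : ℕ) : ∀ v, sV m F Y mk bd k v =
    ∑ i ∈ range (2 ^ k), if v + i < bd then tmV m F Y mk (v + i) else 0 := by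
  induction k with
  | zero =>
    intro v
    have : sV m F Y mk bd 0 v =
      @Nat.rec (fun _ => ℕ) 0 (fun _ _ => tmV m F Y mk v) (Nat.sub bd v) := rfl
    rw [this, sub_rec]
    simp
  | succ k ih =>
    intro v
    have : sV m F Y mk bd (k + 1) v = @Nat.rec (fun _ => ℕ) 0
      (fun _ _ => Nat.add (sV m F Y mk bd k v)
        (force (Nat.add v (Nat.pow 2 k)) (sV m F Y mk bd k))) (Nat.sub bd v) := rfl
    rw [this, sub_rec, force_eq]
    have e : (2 : ℕ) ^ (k + 1) = 2 ^ k + 2 ^ k := by ring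
    rw [e, Finset.sum_range_add]
    by_cases h : v < bd
    · rw [if_pos h]
      change sV m F Y mk bd k v + sV m F Y mk bd k (v + 2 ^ k) = _
      rw [ih, ih]
      simp only [add_assoc]
    · rw [if_neg h]
      clear this ih
      symm
      rw [Nat.add_eq_zero_iff]
      constructor
      · apply Finset.sum_eq_zero
        intro i _
        exact if_neg (not_lt.mpr ((not_lt.mp h).trans (Nat.le_add_right _ _)))
      · apply Finset.sum_eq_zero
        intro i _
        exact if_neg (not_lt.mpr ((not_lt.mp h).trans (Nat.le_add_right _ _)))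

theorem sum_S {m F : ℕ} (hm : 1 < m) (hm2 : m < 32768) (ax : Ax) (b : ℕ) :
    sV m F (P (yh m) ax b * 2 ^ 88 + 536870912 * 17592186044416)
      (msk 17591649173504 (ax.sz + 2)) ((m + 1) / 2) 14 0 =
    (∑ v ∈ Vm m, bw m F v) + (∑ v ∈ Vm m, bw m F v * v) * 2 ^ 44 +
      P (fun y => ∑ v ∈ Vm m, bw m F v * (v * (y % m) / m)) ax b * 2 ^ 88 := by
  rw [sV_eq]
  simp only [zero_add]
  have hbd : (m + 1) / 2 ≤ 2 ^ 14 := by omega
  have h1 : ∑ i ∈ range (2 ^ 14), (if i < (m + 1) / 2 then
      tmV m F (P (yh m) ax b * 2 ^ 88 + 536870912 * 17592186044416)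
        (msk 17591649173504 (ax.sz + 2)) i else 0) =
      ∑ v ∈ Vm m, bw m F v * (1 + v * 2 ^ 44 + P (fun y => v * (y % m) / m) ax b * 2 ^ 88) := by
    rw [← Finset.sum_filter]
    have h2 : (range (2 ^ 14)).filter (fun i => i < (m + 1) / 2) = range ((m + 1) / 2) := by
      ext i; simp only [mem_filter, mem_range]; omega
    rw [h2]
    unfold Vm
    rw [Finset.sum_filter]
    apply Finset.sum_congr rfl
    intro v hv
    rw [mem_range] at hv
    have hv1 : v < 16384 := by omega
    have hv3 : v * m < 536870912 := by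
      have : v * m ≤ 16383 * 32767 := Nat.mul_le_mul (by omega) (by omega)
      omega
    rw [tmV_eq hm hv3 (by omega)]
  rw [h1, P_sum]
  simp only [P_mul]
  rw [Finset.sum_mul, Finset.sum_mul, ← Finset.sum_add_distrib, ← Finset.sum_add_distrib]
  apply Finset.sum_congr rfl
  intro v _
  ring

theorem cj_t {c x : Bool} (h : cj c x = true) : c = true ∧ x = true := by
  cases c <;> cases x <;> simp_all [cj]

theorem Vm_lt {m v : ℕ} (h : v ∈ Vm m) : v < (m + 1) / 2 := by
  unfold Vm at h; simp at h; exact h.1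

theorem Vm_card (m : ℕ) : (Vm m).card ≤ (m + 1) / 2 := by
  unfold Vm
  exact (Finset.card_filter_le _ _).trans (by simp)

theorem chkW_sound {m F b0 : ℕ} {ax : Ax} {A1 A0 W : ℕ} (hm : 1 < m) (hm2 : m < 32768)
    (hF : F % m ≠ 0) (h : chkW m F b0 ax A1 A0 W = true) : W = P (w8 m F) ax b0 := by
  unfold chkW at h
  simp only [force_eq, pk_eq] at h
  have hY : Nat.add (Nat.mul (P (yh m) ax b0) (Nat.pow 2 88)) (Nat.mul 536870912 17592186044416) =
    P (yh m) ax b0 * 2 ^ 88 + 536870912 * 17592186044416 := rfl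
  have hn : Nat.add ax.sz 2 = ax.sz + 2 := rfl
  have hb : Nat.div (Nat.add m 1) 2 = (m + 1) / 2 := rfl
  rw [hY, hn, hb, sum_S hm hm2] at h
  set S0 := ∑ v ∈ Vm m, bw m F v with hS0
  set S1 := ∑ v ∈ Vm m, bw m F v * v with hS1
  set Q := P (fun y => ∑ v ∈ Vm m, bw m F v * (v * (y % m) / m)) ax b0 with hQ
  have hcard : (Vm m).card ≤ 16384 := (Vm_card m).trans (by omega)
  have b0' : S0 < 2 ^ 44 := by
    have : S0 ≤ (Vm m).card * 255 := by
      rw [hS0]; exact Finset.sum_le_card_nsmul _ _ _ (fun v _ => by have := bw_lt m F v; omega)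
    omega
  have b1' : S1 < 2 ^ 44 := by
    have : S1 ≤ (Vm m).card * (255 * 16384) := by
      rw [hS1]
      exact Finset.sum_le_card_nsmul _ _ _ (fun v hv => by
        have := bw_lt m F v
        have := Vm_lt hv
        exact Nat.mul_le_mul (by omega) (by omega))
    omega
  have d0 : (S0 + S1 * 2 ^ 44 + Q * 2 ^ 88) % 17592186044416 = S0 := by
    have : S0 + S1 * 2 ^ 44 + Q * 2 ^ 88 = S0 + (S1 + Q * 2 ^ 44) * 17592186044416 := by ring
    rw [this, Nat.add_mul_mod_self_right, Nat.mod_eq_of_lt (by omega)]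
  have d1 : (S0 + S1 * 2 ^ 44 + Q * 2 ^ 88) / 17592186044416 % 17592186044416 = S1 := by
    have : S0 + S1 * 2 ^ 44 + Q * 2 ^ 88 = S0 + (S1 + Q * 17592186044416) * 17592186044416 := by ring
    rw [this, Nat.add_mul_div_right _ _ (by norm_num), Nat.div_eq_of_lt (by omega), zero_add,
      Nat.add_mul_mod_self_right, Nat.mod_eq_of_lt (by omega)]
  have d2 : (S0 + S1 * 2 ^ 44 + Q * 2 ^ 88) / 2 ^ 88 = Q := by
    have h88 : S0 + S1 * 2 ^ 44 < 2 ^ 88 := by
      have : S1 * 2 ^ 44 ≤ (2 ^ 44 - 1) * 2 ^ 44 := Nat.mul_le_mul_right _ (by omega)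
      omega
    rw [Nat.add_mul_div_right _ _ (by positivity), Nat.div_eq_of_lt h88, zero_add]
  obtain ⟨h1, h2⟩ := cj_t h
  obtain ⟨h2, h3⟩ := cj_t h2
  have h1' := Nat.eq_of_beq_eq_true h1
  have h2' := Nat.eq_of_beq_eq_true h2
  have h3' := Nat.eq_of_beq_eq_true h3
  change 2 * ((S0 + S1 * 2 ^ 44 + Q * 2 ^ 88) / 17592186044416 % 17592186044416) % 256 = A1 at h1'
  change (32768 - m) * ((S0 + S1 * 2 ^ 44 + Q * 2 ^ 88) % 17592186044416) % 256 = A0 at h2'
  change Nat.land ((65536 - 2 * m) % 256 * ((S0 + S1 * 2 ^ 44 + Q * 2 ^ 88) / 2 ^ 88) +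
    P (af m A1 A0) ax b0) (msk 255 ax.sz) = W at h3'
  rw [d1] at h1'
  rw [d0] at h2'
  rw [d2, hQ, ← P_mul, ← P_add] at h3'
  have hA1 : A1 < 256 := by rw [← h1']; exact Nat.mod_lt _ (by norm_num)
  have hA0 : A0 < 256 := by rw [← h2']; exact Nat.mod_lt _ (by norm_num)
  have haf : ∀ y, af m A1 A0 y = if y % m = 0 then 0 else A1 * (y % m) + A0 := by
    intro y
    unfold af
    have : Nat.mod y m = y % m := rfl
    rw [this]
    rcases Nat.eq_zero_or_pos (y % m) with h0 | h0
    · rw [h0]; rfl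
    · rw [if_neg (by omega)]
      obtain ⟨k, hk⟩ : ∃ k, y % m = k + 1 := ⟨y % m - 1, by omega⟩
      rw [hk]; rfl
  have hacc : ∀ y, ∑ v ∈ Vm m, bw m F v * (v * (y % m) / m) ≤ 16384 * (255 * 16384) := by
    intro y
    have h5 : ∑ v ∈ Vm m, bw m F v * (v * (y % m) / m) ≤ (Vm m).card * (255 * 16384) := by
      apply Finset.sum_le_card_nsmul
      intro v hv
      have := bw_lt m F v
      have h6 := Vm_lt hv
      have h7 : v * (y % m) / m ≤ v := by
        have : y % m < m := Nat.mod_lt _ (by omega)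
        calc v * (y % m) / m ≤ v * m / m := Nat.div_le_div_right (Nat.mul_le_mul_left _ this.le)
          _ = v := Nat.mul_div_cancel _ (by omega)
      exact Nat.mul_le_mul (by omega) (by omega)
    exact h5.trans (Nat.mul_le_mul_right _ hcard)
  rw [P_msk 255 (by norm_num)] at h3'
  · rw [← h3']
    apply P_congr
    intro y
    rw [land_255]
    have h256 : w8 m F y = w8 m F y % 256 := (Nat.mod_eq_of_lt (w8_lt m F y)).symm
    rw [h256, ← ZMod.natCast_eq_natCast_iff']
    have cA1 : (A1 : ZMod 256) = 2 * (S1 : ZMod 256) := by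
      rw [← h1', ZMod.natCast_mod]; push_cast; ring
    have cA0 : (A0 : ZMod 256) = -(m : ZMod 256) * (S0 : ZMod 256) := by
      rw [← h2', ZMod.natCast_mod, Nat.cast_mul, Nat.cast_sub hm2.le, z256]; ring
    have cA2 : (((65536 - 2 * m) % 256 : ℕ) : ZMod 256) = -2 * (m : ZMod 256) := by
      rw [ZMod.natCast_mod, Nat.cast_sub (by omega)]
      have : ((65536 : ℕ) : ZMod 256) = 0 := by decide
      rw [this]; push_cast; ring
    rw [haf, Nat.cast_add, Nat.cast_mul, cA2]
    unfold w8
    by_cases hy : y % m = 0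
    · rw [if_pos hy, if_pos (Or.inr hy), hy]
      simp
    · rw [if_neg hy, if_neg (by tauto), ZMod.natCast_zmod_val]
      push_cast
      rw [cA1, cA0, hS1, hS0]
      push_cast
      unfold wz
      rw [Finset.mul_sum, Finset.mul_sum, Finset.sum_mul, Finset.mul_sum, ← Finset.sum_add_distrib,
        ← Finset.sum_add_distrib]
      apply Finset.sum_congr rfl
      intro v _
      rw [bw_cast hm2]
      have e1 : ((v * y % m : ℕ) : ZMod 256) = v * ((y % m : ℕ) : ZMod 256) -
          m * ((v * (y % m) / m : ℕ) : ZMod 256) := by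
        have e2 : v * y % m + m * (v * (y % m) / m) = v * (y % m) := by
          have : v * y % m = v * (y % m) % m := by rw [Nat.mul_mod_mod]
          rw [this]; exact Nat.mod_add_div _ _
        have e3 := congrArg (fun z : ℕ => (z : ZMod 256)) e2
        simp only [Nat.cast_add, Nat.cast_mul] at e3
        linear_combination e3
      rw [e1]
      ring
  · intro y
    rw [haf]
    have h6 := hacc y
    have h7 : y % m < m := Nat.mod_lt _ (by omega)
    have h8 : (65536 - 2 * m) % 256 ≤ 255 := by omega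
    have h9 : (65536 - 2 * m) % 256 * ∑ v ∈ Vm m, bw m F v * (v * (y % m) / m) ≤
      255 * (16384 * (255 * 16384)) := Nat.mul_le_mul h8 h6
    have h10 : A1 * (y % m) ≤ 255 * 32767 := Nat.mul_le_mul (by omega) (by omega)
    split_ifs <;> omega

end Pool.Agent.N156.HT
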