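import Pool.Agent.N156.HT.H5
import Pool.Agent.N911.K4

/-! Soundness of the contraction. -/

namespace Pool.Agent.N156.HT

open Finset H419R2 Pool.Agent.N911

/-- contraction -/
def ct (l M sg e : ℕ) (w : ℕ → ℕ → ℕ) (F y : ℕ) : ℕ :=
  (sg * w F (y + e) + ∑ u ∈ range l, (1 + 254 * ((M >>> u) % 2)) * w (F + e) (y + e * u)) % 256

theorem ct_lt (l M sg e : ℕ) (w : ℕ → ℕ → ℕ) (F y : ℕ) : ct l M sg e w F y < 256 :=
  Nat.mod_lt _ (by norm_num)

theorem nv_eq {l M sg e : ℕ} {w : ℕ → ℕ → ℕ} (hw : ∀ F y, w F y < 256) (hl : l ≤ 1000)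
    (hs : sg < 256) (ax : Ax)
    (F y : ℕ) :
    nv l M sg (Nat.mul 44 ax.sz) (msk 255 ax.sz) (P (w (F + e)) (.cons e l ax) y)
      (P (w F) ax (y + e)) = P (ct l M sg e w F) ax y := by
  unfold nv
  have h44 : ∀ F y, w F y < 2 ^ 44 := fun F y => (hw F y).trans (by norm_num)
  rw [rec_sum (fun u => Nat.mul (Nat.add 1 (Nat.mul 254 (Nat.mod (Nat.shiftRight M u) 2)))
    (Nat.mod (Nat.shiftRight (P (w (F + e)) (.cons e l ax) y) (Nat.mul (Nat.mul 44 ax.sz) u))
      (Nat.pow 2 (Nat.mul 44 ax.sz))))]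
  have h1 : ∑ u ∈ range l, Nat.mul (Nat.add 1 (Nat.mul 254 (Nat.mod (Nat.shiftRight M u) 2)))
    (Nat.mod (Nat.shiftRight (P (w (F + e)) (.cons e l ax) y) (Nat.mul (Nat.mul 44 ax.sz) u))
      (Nat.pow 2 (Nat.mul 44 ax.sz))) =
      P (fun z => ∑ u ∈ range l, (1 + 254 * ((M >>> u) % 2)) * w (F + e) (z + e * u)) ax y := by
    rw [P_sum]
    apply Finset.sum_congr rfl
    intro u hu
    rw [mem_range] at hu
    have h2 := seg_eq (fun z => h44 (F + e) z) e l ax y u hu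
    change (1 + 254 * ((M >>> u) % 2)) * Nat.mod (Nat.shiftRight (P (w (F + e)) (.cons e l ax) y)
      (Nat.mul (44 * ax.sz) u)) (Nat.pow 2 (44 * ax.sz)) = _
    rw [h2, P_mul, P_shift]
  rw [h1, P_shift]
  change Nat.land (sg * P (fun z => w F (z + e)) ax y +
    P (fun z => ∑ u ∈ range l, (1 + 254 * ((M >>> u) % 2)) * w (F + e) (z + e * u)) ax y)
    (msk 255 ax.sz) = _
  rw [← P_mul, ← P_add, P_msk 255 (by norm_num)]
  · apply P_congr
    intro z
    rw [land_255]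
    rfl
  · intro z
    have h3 : ∑ u ∈ range l, (1 + 254 * ((M >>> u) % 2)) * w (F + e) (z + e * u) ≤
        (range l).card * (255 * 255) := by
      apply Finset.sum_le_card_nsmul
      intro u _
      have := hw (F + e) (z + e * u)
      exact Nat.mul_le_mul (by omega) (by omega)
    rw [Finset.card_range] at h3
    have h4 : sg * w F (z + e) ≤ 255 * 255 := by
      have := hw F (z + e)
      exact Nat.mul_le_mul (by omega) (by omega)
    omega

/-- append an axis -/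
def Ax.snoc (a : Ax) (e l : ℕ) : Ax :=
  match a with
  | .nil => .cons e l .nil
  | .cons e' l' r => .cons e' l' (r.snoc e l)

/-- the tree of a function -/
noncomputable def TR (w : ℕ → ℕ → ℕ) : List (ℕ × ℕ × ℕ × ℕ) → Ax → ℕ → ℕ → Tr
  | [], ax, F, y => .leaf ax.sz (P (w F) ax y)
  | (e, l, _, _) :: L, ax, F, y => .node (TR w L (ax.snoc e l) (F + e) y) (TR w L ax F (y + e))

theorem zipC_TR {l M sg e : ℕ} {w : ℕ → ℕ → ℕ} (hw : ∀ F y, w F y < 256) (hl : l ≤ 1000)
    (hs : sg < 256) : ∀ (L : List (ℕ × ℕ × ℕ × ℕ)) (ax : Ax) (F y : ℕ) (k : Tr → Bool),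
    zipC l M sg (TR w L (.cons e l ax) (F + e) y) (TR w L ax F (y + e)) k =
      k (TR (ct l M sg e w) L ax F y) := by
  intro L
  induction L with
  | nil =>
    intro ax F y k
    have : zipC l M sg (TR w [] (.cons e l ax) (F + e) y) (TR w [] ax F (y + e)) k =
      force (nv l M sg (Nat.mul 44 ax.sz) (msk 255 ax.sz) (P (w (F + e)) (.cons e l ax) y)
        (P (w F) ax (y + e))) (fun V => k (Tr.leaf ax.sz V)) := rfl
    rw [this, force_eq, nv_eq hw hl hs]
    rfl
  | cons c L ih =>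
    intro ax F y k
    obtain ⟨e', l', N, s'⟩ := c
    have : zipC l M sg (TR w ((e', l', N, s') :: L) (.cons e l ax) (F + e) y)
      (TR w ((e', l', N, s') :: L) ax F (y + e)) k =
      zipC l M sg (TR w L (.cons e l (ax.snoc e' l')) (F + e + e') y)
        (TR w L (ax.snoc e' l') (F + e') (y + e)) (fun x =>
        zipC l M sg (TR w L (.cons e l ax) (F + e) (y + e')) (TR w L ax F (y + e + e'))
          (fun z => k (Tr.node x z))) := rfl
    rw [this, add_right_comm F e e', ih, add_right_comm y e e', ih]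
    rfl

/-- kernel levels -/
def toLv : List (ℕ × ℕ × ℕ × ℕ) → Lv
  | [] => .nil
  | (_, l, N, s) :: L => .cons l N s (toLv L)

/-- iterated contraction -/
noncomputable def itc : List (ℕ × ℕ × ℕ × ℕ) → List ℕ → (ℕ → ℕ → ℕ) → ℕ
  | [], _, w => w 0 0
  | (e, l, N, s) :: L, ns, w => itc L ns.tail (ct l (mkM l N (ns.headD 0)) s e w)

/-- index -/
def ixc : List (ℕ × ℕ × ℕ × ℕ) → List ℕ → ℕ → ℕ
  | [], _, i => i
  | (_, l, _, _) :: L, ns, i => ixc L ns.tail (i * l + ns.headD 0)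

/-- admissible residues -/
def okc : List (ℕ × ℕ × ℕ × ℕ) → List ℕ → Prop
  | [], _ => True
  | (_, l, N, s) :: L, ns => s < 256 ∧ l ≤ 1000 ∧ ns.headD 0 < l ∧ inr l N (ns.headD 0) = true ∧ okc L ns.tail

theorem ev_sound (BT : ℕ) : ∀ (L : List (ℕ × ℕ × ℕ × ℕ)) (w : ℕ → ℕ → ℕ), (∀ F y, w F y < 256) →
    ∀ i, ev BT (toLv L) (TR w L .nil 0 0) i = true → ∀ ns, okc L ns →
    itc L ns w = 128 * ((BT >>> ixc L ns i) % 2) := by
  intro L
  induction L with
  | nil =>
    intro w hw i h ns _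
    exact Nat.eq_of_beq_eq_true h
  | cons c L ih =>
    intro w hw i h ns hok
    obtain ⟨e, l, N, s⟩ := c
    obtain ⟨hs, hl, hn, hin, hok⟩ := hok
    have h1 : ev BT (toLv ((e, l, N, s) :: L)) (TR w ((e, l, N, s) :: L) .nil 0 0) i =
      allN l (fun n => imp (inr l N n) (force (mkM l N n) (fun M =>
        zipC l M s (TR w L (.cons e l .nil) (0 + e) 0) (TR w L .nil 0 (0 + e)) (fun t' =>
          force (Nat.add (Nat.mul i l) n) (fun j => ev BT (toLv L) t' j))))) := rfl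
    rw [h1, allN_iff] at h
    have h2 := imp_true (h _ hn) hin
    rw [force_eq, zipC_TR hw hl hs, force_eq] at h2
    exact ih _ (ct_lt _ _ _ _ _) _ h2 _ hok

end Pool.Agent.N156.HT
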