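import Pool.Agent.N156.HT.H2
import Pool.Agent.N156.HT.H6
import Pool.Agent.N911.L.P3

/-! The sum of the form `(1, n, 1)` from the tables. -/

namespace Pool.Agent.N156.HT

open Finset H419R2 Pool.Agent.N911 Pool.Agent.N911.L Pool.Agent.N367.LE

/-- half of the correlation -/
def wh (m X Y : ℕ) : ℤ := if X % m = 0 ∨ Y % m = 0 then 0 else
  ∑ v ∈ Vm m, (2 * ((v * X % m : ℕ) : ℤ) - m) * (2 * ((v * Y % m : ℕ) : ℤ) - m)

theorem w8_cast (m X Y : ℕ) : (w8 m X Y : ZMod 256) = (wh m X Y : ZMod 256) := by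
  unfold w8 wh wz
  split_ifs
  · simp
  · rw [ZMod.natCast_zmod_val]
    push_cast
    rfl

theorem WU_eq {m : ℕ} (hm : m % 2 = 1) (hm1 : 1 < m) (X Y : ℕ) : WU m X Y = 2 * wh m X Y := by
  have : NeZero m := ⟨by omega⟩
  unfold WU wh
  by_cases h : X % m = 0 ∨ Y % m = 0
  · rw [if_pos h, mul_zero]
    apply Finset.sum_eq_zero
    intro v _
    unfold L.w
    rcases h with h | h
    · rw [if_pos (by rw [Nat.mul_mod, h, mul_zero, Nat.zero_mod]), zero_mul]
    · rw [if_pos (c := v * Y % m = 0) (by rw [Nat.mul_mod, h, mul_zero, Nat.zero_mod]), mul_zero]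
  · rw [if_neg h]
    push Not at h
    have h0 : ∀ (Z : ℕ), Z % m ≠ 0 → ∀ x : ZMod m, IsUnit x → x * (Z : ZMod m) ≠ 0 := by
      intro Z hZ x hx h1
      apply hZ
      have h2 : (Z : ZMod m) = 0 := by simpa using hx.mul_right_eq_zero.mp h1
      exact Nat.mod_eq_zero_of_dvd ((ZMod.natCast_eq_zero_iff Z m).mp h2)
    have e0 : ∀ v ∈ (range m).filter (fun v => v.Coprime m), L.w m (v * X) * L.w m (v * Y) =
        (fun x : ZMod m => wE (x * (X : ZMod m)) (x * (Y : ZMod m))) (v : ZMod m) := by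
      intro v hv
      have hu : IsUnit (v : ZMod m) := (ZMod.isUnit_iff_coprime v m).mpr (mem_filter.mp hv).2
      have hz : ∀ Z : ℕ, Z % m ≠ 0 → v * Z % m ≠ 0 := by
        intro Z hZ h1
        apply h0 Z hZ _ hu
        rw [← Nat.cast_mul, ZMod.natCast_eq_zero_iff]
        exact Nat.dvd_of_mod_eq_zero h1
      unfold L.w wE
      rw [if_neg (hz X h.1), if_neg (hz Y h.2)]
      simp only
      rw [if_neg (by have := h0 X h.1 _ hu; have := h0 Y h.2 _ hu; tauto)]
      rw [← Nat.cast_mul, ← Nat.cast_mul, ZMod.val_natCast, ZMod.val_natCast]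
    rw [Finset.sum_congr rfl e0,
      sum_half hm hm1 (fun x : ZMod m => wE (x * (X : ZMod m)) (x * (Y : ZMod m)))]
    · congr 1
      unfold Vm
      apply Finset.sum_congr rfl
      intro v hv
      have hu : IsUnit (v : ZMod m) := (ZMod.isUnit_iff_coprime v m).mpr (mem_filter.mp hv).2
      unfold wE
      rw [if_neg (by have := h0 X h.1 _ hu; have := h0 Y h.2 _ hu; tauto)]
      rw [← Nat.cast_mul, ← Nat.cast_mul, ZMod.val_natCast, ZMod.val_natCast]
    · intro x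
      have e2 : -x * (X : ZMod m) = -(x * X) := by ring
      have e3 : -x * (Y : ZMod m) = -(x * Y) := by ring
      rw [e2, e3, wE_neg2]

/-- the table `N` of non-residues -/
def NRok (l N : ℕ) : Prop := ∀ x < l, (N >>> x) % 2 = if jacobiSym (x : ℤ) l = -1 then 1 else 0

theorem nr_bit {l N : ℕ} (hl : 0 < l) (h : NRok l N) (x : ℕ) (z : ℤ) (hx : (x : ℤ) ≡ z [ZMOD l]) :
    (N >>> (x % l)) % 2 = if jacobiSym z l = -1 then 1 else 0 := by
  rw [h _ (Nat.mod_lt _ hl)]
  have : jacobiSym ((x % l : ℕ) : ℤ) l = jacobiSym z l := by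
    apply jacobiSym.mod_left'
    push_cast
    rw [Int.emod_emod_of_dvd _ (dvd_refl _)]
    exact hx
  rw [this]

theorem dig {s : ℕ} {g : ℕ → ℕ} (hg : ∀ u, g u < 2 ^ s) (l u : ℕ) (hu : u < l) :
    (∑ v ∈ range l, g v * 2 ^ (s * v)) / 2 ^ (s * u) % 2 ^ s = g u := by
  obtain ⟨k, rfl⟩ : ∃ k, l = u + (1 + k) := ⟨l - u - 1, by omega⟩
  rw [Finset.sum_range_add, Finset.sum_range_add]
  simp only [Finset.sum_range_one, add_zero]
  have h1 : ∑ x ∈ range k, g (u + (1 + x)) * 2 ^ (s * (u + (1 + x))) =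
      (∑ x ∈ range k, g (u + (1 + x)) * 2 ^ (s * x)) * 2 ^ s * 2 ^ (s * u) := by
    rw [Finset.sum_mul, Finset.sum_mul]
    apply Finset.sum_congr rfl
    intro x _
    have h2 : 2 ^ (s * (u + (1 + x))) = 2 ^ (s * x) * 2 ^ s * 2 ^ (s * u) := by
      rw [← pow_add, ← pow_add]; congr 1; ring
    rw [h2]
    ring
  rw [h1, ← add_mul, Nat.add_mul_div_right _ _ (by positivity),
    Nat.div_eq_of_lt (sum_lt u (fun v _ => hg v)), zero_add, Nat.add_mul_mod_self_right]
  exact Nat.mod_eq_of_lt (hg _)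

theorem mkM_bit {l N n : ℕ} (u : ℕ) (hu : u < l) :
    (mkM l N n >>> u) % 2 = (N >>> ((1 + n * u + u * (l - u)) % l)) % 2 := by
  have h1 : mkM l N n = ∑ v ∈ range l, ((N >>> ((1 + n * v + v * (l - v)) % l)) % 2) * 2 ^ (1 * v) := by
    unfold mkM
    rw [rec_sum (fun u => Nat.mul (Nat.mod (Nat.shiftRight N
      (Nat.mod (Nat.add (Nat.add 1 (Nat.mul n u)) (Nat.mul u (Nat.sub l u))) l)) 2) (Nat.pow 2 u))]
    apply Finset.sum_congr rfl
    intro v _
    rw [one_mul]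
    rfl
  rw [h1, Nat.shiftRight_eq_div_pow]
  have := dig (s := 1) (g := fun v => (N >>> ((1 + n * v + v * (l - v)) % l)) % 2)
    (fun v => by simpa using Nat.mod_lt _ (by norm_num : 0 < 2)) l u hu
  simpa using this

theorem jac_ne {l : ℕ} (hp : l.Prime) {n : ℤ} (hn : jacobiSym (n ^ 2 + 4) l = -1) (u : ℤ) :
    jacobiSym (1 + n * u - u ^ 2) l ≠ 0 := by
  intro h0
  have hd : (l : ℤ) ∣ 1 + n * u - u ^ 2 := by
    rw [jacobiSym.eq_zero_iff] at h0
    have h3 := h0.2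
    have h4 : Int.gcd (1 + n * u - u ^ 2) l ∣ l := by
      have := Int.gcd_dvd_natAbs_right (1 + n * u - u ^ 2) (l : ℤ)
      simpa using this
    rcases (Nat.dvd_prime hp).mp h4 with h5 | h5
    · exact absurd h5 h3
    · have := Int.gcd_dvd_left (1 + n * u - u ^ 2) (l : ℤ)
      rwa [h5] at this
  have h6 : jacobiSym (n ^ 2 + 4) l = jacobiSym ((2 * u - n) ^ 2) l := by
    apply jacobiSym.mod_left'
    apply (Int.modEq_iff_dvd).mpr
    obtain ⟨c, hc⟩ := hd
    exact ⟨-4 * c, by linear_combination -4 * hc⟩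
  rw [jacobiSym.pow_left] at h6
  rw [h6] at hn
  have := sq_nonneg (jacobiSym (2 * u - n) l)
  omega

theorem ct_cast {l N sg : ℕ} (hp : l.Prime) (hN : NRok l N)
    (hs : (sg : ZMod 256) = (jacobiSym (-1) l : ZMod 256)) {n : ℕ}
    (hn : jacobiSym ((n : ℤ) ^ 2 + 4) l = -1) (e : ℕ) (w : ℕ → ℕ → ℕ) (F y : ℕ) :
    ((ct l (mkM l N (n % l)) sg e w F y : ℕ) : ZMod 256) =
      ∑ i ∈ range (l + 1), (qu l n i : ZMod 256) * (w (F + e * ux l i) (y + e * uy l i) : ZMod 256) := by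
  unfold ct
  rw [ZMod.natCast_mod, Finset.sum_range_succ, Nat.cast_add, Nat.cast_mul, Nat.cast_sum, add_comm]
  congr 1
  · apply Finset.sum_congr rfl
    intro u hu
    rw [mem_range] at hu
    have hux : ux l u = 1 := by unfold ux; rw [if_neg (by omega)]
    have huy : uy l u = u := by unfold uy; rw [if_neg (by omega)]
    rw [hux, huy, mul_one, Nat.cast_mul]
    congr 1
    rw [mkM_bit u hu]
    have hx : ((1 + n % l * u + u * (l - u) : ℕ) : ℤ) ≡ (1 + n * u - (u : ℤ) ^ 2) [ZMOD l] := by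
      push_cast [Nat.cast_sub hu.le]
      have e1 : (n : ℤ) % l ≡ n [ZMOD l] := Int.mod_modEq _ _
      have e2 : ((u : ℤ) * (l - u)) ≡ -(u : ℤ) ^ 2 [ZMOD l] := by
        apply (Int.modEq_iff_dvd).mpr
        exact ⟨-u, by ring⟩
      have e3 := ((Int.ModEq.refl 1).add (e1.mul_right (u : ℤ))).add e2
      have e4 : (1 + (n : ℤ) * u + -(u : ℤ) ^ 2) = 1 + n * u - (u : ℤ) ^ 2 := by ring
      rw [e4] at e3
      exact e3
    rw [nr_bit hp.pos hN _ _ hx]
    have hq : qu l n u = jacobiSym (1 + n * u - (u : ℤ) ^ 2) l := by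
      unfold qu
      rw [hux, huy]
      congr 1
      push_cast
      ring
    rw [hq]
    rcases jacobiSym.trichotomy (1 + (n : ℤ) * u - (u : ℤ) ^ 2) l with h0 | h0 | h0
    · exact absurd h0 (jac_ne hp hn u)
    · rw [h0]; simp
    · rw [h0]; decide
  · have hux : ux l l = 0 := by unfold ux; rw [if_pos rfl]
    have huy : uy l l = 1 := by unfold uy; rw [if_pos rfl]
    rw [hux, huy, mul_zero, add_zero, mul_one, hs]
    congr 2
    unfold qu
    rw [hux, huy]
    congr 1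

end Pool.Agent.N156.HT
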