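import Pool.Agent.N156.HT.H7

/-! The table theorem. -/

namespace Pool.Agent.N156.HT

open Finset H419R2 Pool.Agent.N911 Pool.Agent.N911.L Pool.Agent.N367.LE

/-- data of a prime -/
structure PD (l N s : ℕ) : Prop where
  prime : l.Prime
  ne2 : l ≠ 2
  nr : NRok l N
  sc : (s : ZMod 256) = (jacobiSym (-1) l : ZMod 256)
  sl : s < 256
  ll : l ≤ 1000

theorem inr_of {l N s : ℕ} (h : PD l N s) {n : ℕ} (hn : jacobiSym ((n : ℤ) ^ 2 + 4) l = -1) :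
    inr l N (n % l) = true := by
  unfold inr
  have h1 := nr_bit h.prime.pos h.nr (n % l * (n % l) + 4) ((n : ℤ) ^ 2 + 4) (by
    push_cast
    have e1 : (n : ℤ) % l ≡ n [ZMOD l] := Int.mod_modEq _ _
    have e2 := (e1.mul e1).add (Int.ModEq.refl 4)
    rw [← pow_two (n : ℤ)] at e2
    exact e2)
  rw [if_pos hn] at h1
  have h2 : Nat.mod (Nat.shiftRight N (Nat.mod (Nat.add (Nat.mul (n % l) (n % l)) 4) l)) 2 = 1 := h1
  rw [h2]
  rfl

theorem tb_gen {l1 l2 l3 l4 e1 e2 e3 e4 N1 N2 N3 N4 s1 s2 s3 s4 BT m : ℕ}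
    (p1 : PD l1 N1 s1) (p2 : PD l2 N2 s2) (p3 : PD l3 N3 s3) (p4 : PD l4 N4 s4)
    (h12 : l1 ≠ l2) (h13 : l1 ≠ l3) (h14 : l1 ≠ l4) (h23 : l2 ≠ l3) (h24 : l2 ≠ l4) (h34 : l3 ≠ l4)
    (hid : Idem l4 l3 l2 l1 e4 e3 e2 e1) (hm : l4 * l3 * l2 * l1 = m) (hm2 : m % 2 = 1) (hm1 : 1 < m)
    (hev : ev BT (toLv [(e1, l1, N1, s1), (e2, l2, N2, s2), (e3, l3, N3, s3), (e4, l4, N4, s4)])
      (TR (w8 m) [(e1, l1, N1, s1), (e2, l2, N2, s2), (e3, l3, N3, s3), (e4, l4, N4, s4)]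
        .nil 0 0) 0 = true)
    (δ : ℤ) (n : ℕ) (hn : ∀ l ∈ ({l1, l2, l3, l4} : Finset ℕ), jacobiSym ((n : ℤ) ^ 2 + 4) l = -1) :
    (512 : ℤ) ∣ SEr δ {l1, l2, l3, l4} n -
      256 * (((BT >>> (((n % l1 * l2 + n % l2) * l3 + n % l3) * l4 + n % l4)) % 2 : ℕ) : ℤ) := by
  have n1 := hn l1 (by simp)
  have n2 := hn l2 (by simp)
  have n3 := hn l3 (by simp)
  have n4 := hn l4 (by simp)
  have hok : okc [(e1, l1, N1, s1), (e2, l2, N2, s2), (e3, l3, N3, s3), (e4, l4, N4, s4)]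
      [n % l1, n % l2, n % l3, n % l4] :=
    ⟨p1.sl, p1.ll, Nat.mod_lt _ p1.prime.pos, inr_of p1 n1, p2.sl, p2.ll,
      Nat.mod_lt _ p2.prime.pos, inr_of p2 n2, p3.sl, p3.ll, Nat.mod_lt _ p3.prime.pos,
      inr_of p3 n3, p4.sl, p4.ll, Nat.mod_lt _ p4.prime.pos, inr_of p4 n4, trivial⟩
  have h1 := ev_sound BT _ (w8 m) (w8_lt m) 0 hev _ hok
  have hix : ixc [(e1, l1, N1, s1), (e2, l2, N2, s2), (e3, l3, N3, s3), (e4, l4, N4, s4)]
      [n % l1, n % l2, n % l3, n % l4] 0 = ((n % l1 * l2 + n % l2) * l3 + n % l3) * l4 + n % l4 := by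
    simp [ixc]
  rw [hix] at h1
  set b := (BT >>> (((n % l1 * l2 + n % l2) * l3 + n % l3) * l4 + n % l4)) % 2 with hb
  have h2 : itc [(e1, l1, N1, s1), (e2, l2, N2, s2), (e3, l3, N3, s3), (e4, l4, N4, s4)]
      [n % l1, n % l2, n % l3, n % l4] (w8 m) =
      ct l4 (mkM l4 N4 (n % l4)) s4 e4 (ct l3 (mkM l3 N3 (n % l3)) s3 e3
        (ct l2 (mkM l2 N2 (n % l2)) s2 e2 (ct l1 (mkM l1 N1 (n % l1)) s1 e1 (w8 m)))) 0 0 := rfl
  have h3 : ((itc [(e1, l1, N1, s1), (e2, l2, N2, s2), (e3, l3, N3, s3), (e4, l4, N4, s4)]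
      [n % l1, n % l2, n % l3, n % l4] (w8 m) : ℕ) : ZMod 256) = ((128 * b : ℕ) : ZMod 256) := by
    rw [h1]
  rw [h2, ct_cast p4.prime p4.nr p4.sc n4] at h3
  simp only [ct_cast p3.prime p3.nr p3.sc n3, ct_cast p2.prime p2.nr p2.sc n2,
    ct_cast p1.prime p1.nr p1.sc n1, zero_add, w8_cast] at h3
  -- the exact formula
  have hS : ({l1, l2, l3, l4} : Finset ℕ) = {l4, l3, l2, l1} := by
    ext x; simp only [mem_insert, mem_singleton]; tauto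
  rw [hS, SEr_tensorU δ p4.prime p3.prime p2.prime p1.prime p4.ne2 p3.ne2 p2.ne2 p1.ne2 h34.symm
    h24.symm h14.symm h23.symm h13.symm h12.symm n hid, hm]
  set Z : ℤ := ∑ i ∈ range (l4 + 1), ∑ j ∈ range (l3 + 1), ∑ k ∈ range (l2 + 1),
    ∑ t ∈ range (l1 + 1), qu l4 n i * qu l3 n j * qu l2 n k * qu l1 n t *
      wh m (comb e4 e3 e2 e1 (ux l4 i) (ux l3 j) (ux l2 k) (ux l1 t))
        (comb e4 e3 e2 e1 (uy l4 i) (uy l3 j) (uy l2 k) (uy l1 t)) with hZ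
  have h4 : ∑ i ∈ range (l4 + 1), ∑ j ∈ range (l3 + 1), ∑ k ∈ range (l2 + 1),
    ∑ t ∈ range (l1 + 1), qu l4 n i * qu l3 n j * qu l2 n k * qu l1 n t *
      WU m (comb e4 e3 e2 e1 (ux l4 i) (ux l3 j) (ux l2 k) (ux l1 t))
        (comb e4 e3 e2 e1 (uy l4 i) (uy l3 j) (uy l2 k) (uy l1 t)) = 2 * Z := by
    rw [hZ]
    simp only [Finset.mul_sum]
    apply Finset.sum_congr rfl; intro i _
    apply Finset.sum_congr rfl; intro j _
    apply Finset.sum_congr rfl; intro k _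
    apply Finset.sum_congr rfl; intro t _
    rw [WU_eq hm2 hm1]
    ring
  rw [h4]
  have h5 : ((Z - 128 * (b : ℤ) : ℤ) : ZMod 256) = 0 := by
    rw [Int.cast_sub, sub_eq_zero]
    have h6 : (((128 * b : ℕ) : ℕ) : ZMod 256) = ((128 * (b : ℤ) : ℤ) : ZMod 256) := by
      push_cast; ring
    rw [← h6, ← h3, hZ]
    push_cast
    simp only [Finset.mul_sum]
    apply Finset.sum_congr rfl; intro i _
    apply Finset.sum_congr rfl; intro j _
    apply Finset.sum_congr rfl; intro k _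
    apply Finset.sum_congr rfl; intro t _
    unfold comb
    ring
  obtain ⟨c, hc⟩ := (ZMod.intCast_zmod_eq_zero_iff_dvd _ 256).mp h5
  exact ⟨c, by push_cast at hc; linear_combination 2 * hc⟩

theorem mk_leaf {w : ℕ → ℕ → ℕ} {F y n T : ℕ} {ax : Ax} (h1 : n = ax.sz) (h2 : T = P (w F) ax y) :
    Tr.leaf n T = TR w [] ax F y := by
  subst h1 h2
  rfl

theorem mk_node {w : ℕ → ℕ → ℕ} {F y e l N s : ℕ} {L : List (ℕ × ℕ × ℕ × ℕ)} {ax : Ax} {a b : Tr}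
    (ha : a = TR w L (ax.snoc e l) (F + e) y) (hb : b = TR w L ax F (y + e)) :
    Tr.node a b = TR w ((e, l, N, s) :: L) ax F y := by
  subst ha hb
  rfl

theorem w8_zero (m y : ℕ) : w8 m 0 y = 0 := by
  unfold w8
  rw [if_pos (Or.inl (Nat.zero_mod m))]

/-- joining two pieces along the first axis -/
theorem P_join {a : ℕ → ℕ} {e c c' b b' s : ℕ} {r : Ax} {T T' : ℕ}
    (h : T = P a (.cons e c r) b) (h' : T' = P a (.cons e c' r) b') (hb : b' = b + e * c)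
    (hs : s = 44 * r.sz * c) :
    Nat.add T (Nat.mul (Nat.pow 2 s) T') = P a (.cons e (c + c') r) b := by
  subst h h' hb hs
  change P a (.cons e c r) b + 2 ^ (44 * r.sz * c) * P a (.cons e c' r) (b + e * c) = _
  simp only [P]
  rw [Finset.sum_range_add, Finset.mul_sum]
  congr 1
  apply Finset.sum_congr rfl
  intro u _
  have e1 : b + e * (c + u) = b + e * c + e * u := by ring
  have e2 : 2 ^ (44 * r.sz * (c + u)) = 2 ^ (44 * r.sz * c) * 2 ^ (44 * r.sz * u) := by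
    rw [← pow_add]; congr 1; ring
  rw [e1, e2]
  ring

end Pool.Agent.N156.HT
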