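import Pool.Agent.N156.HT.H8

/-! Data of the primes. -/

namespace Pool.Agent.N156.HT

theorem pd3 : PD 3 4 255 where
  prime := by norm_num
  ne2 := by norm_num
  nr := by
    intro x hx
    interval_cases x <;> norm_num <;> rfl
  sc := by
    have h : jacobiSym (-1) 3 = -1 := by norm_num
    rw [h]
    decide
  sl := by norm_num
  ll := by norm_num

theorem pd5 : PD 5 12 1 where
  prime := by norm_num
  ne2 := by norm_num
  nr := by
    intro x hx
    interval_cases x <;> norm_num <;> rfl
  sc := by
    have h : jacobiSym (-1) 5 = 1 := by norm_num
    rw [h]
    decide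
  sl := by norm_num
  ll := by norm_num

theorem pd7 : PD 7 104 255 where
  prime := by norm_num
  ne2 := by norm_num
  nr := by
    intro x hx
    interval_cases x <;> norm_num <;> rfl
  sc := by
    have h : jacobiSym (-1) 7 = -1 := by norm_num
    rw [h]
    decide
  sl := by norm_num
  ll := by norm_num

theorem pd11 : PD 11 1476 255 where
  prime := by norm_num
  ne2 := by norm_num
  nr := by
    intro x hx
    interval_cases x <;> norm_num <;> rfl
  sc := by
    have h : jacobiSym (-1) 11 = -1 := by norm_num
    rw [h]
    decide
  sl := by norm_num
  ll := by norm_num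

theorem pd13 : PD 13 2532 1 where
  prime := by norm_num
  ne2 := by norm_num
  nr := by
    intro x hx
    interval_cases x <;> norm_num <;> rfl
  sc := by
    have h : jacobiSym (-1) 13 = 1 := by norm_num
    rw [h]
    decide
  sl := by norm_num
  ll := by norm_num

theorem pd17 : PD 17 23784 1 where
  prime := by norm_num
  ne2 := by norm_num
  nr := by
    intro x hx
    interval_cases x <;> norm_num <;> rfl
  sc := by
    have h : jacobiSym (-1) 17 = 1 := by norm_num
    rw [h]
    decide
  sl := by norm_num
  ll := by norm_num

theorem pd19 : PD 19 324876 255 where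
  prime := by norm_num
  ne2 := by norm_num
  nr := by
    intro x hx
    interval_cases x <;> norm_num <;> rfl
  sc := by
    have h : jacobiSym (-1) 19 = -1 := by norm_num
    rw [h]
    decide
  sl := by norm_num
  ll := by norm_num

theorem pd23 : PD 23 8047776 255 where
  prime := by norm_num
  ne2 := by norm_num
  nr := by
    intro x hx
    interval_cases x <;> norm_num <;> rfl
  sc := by
    have h : jacobiSym (-1) 23 = -1 := by norm_num
    rw [h]
    decide
  sl := by norm_num
  ll := by norm_num

theorem pd29 : PD 29 204397836 1 where
  prime := by norm_num
  ne2 := by norm_num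
  nr := by
    intro x hx
    interval_cases x <;> norm_num <;> rfl
  sc := by
    have h : jacobiSym (-1) 29 = 1 := by norm_num
    rw [h]
    decide
  sl := by norm_num
  ll := by norm_num

theorem pd31 : PD 31 1843574856 255 where
  prime := by norm_num
  ne2 := by norm_num
  nr := by
    intro x hx
    interval_cases x <;> norm_num <;> rfl
  sc := by
    have h : jacobiSym (-1) 31 = -1 := by norm_num
    rw [h]
    decide
  sl := by norm_num
  ll := by norm_num

end Pool.Agent.N156.HT
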