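import Pool.Agent.N156.HT.H9
import Pool.Agent.N156.HT.D19227

/-! The sum for 29 17 13 3. -/

namespace Pool.Agent.N156.HT.D19227

open Pool.Agent.N156.HT Pool.Agent.N911.L

set_option exponentiation.threshold 2000000

theorem u15 : W15 = P (w8 19227 19228) (.cons 4641 29 (.cons 2262 17 (.cons 5916 13 (.cons 6409 3 .nil)))) 0 :=
  by
  unfold W15
  exact @P_join (w8 19227 19228) 4641 10 (10 + (9)) 0 46410 291720 (.cons 2262 17 (.cons 5916 13 (.cons 6409 3 .nil))) W15c0 (Nat.add W15c1 (Nat.mul (Nat.pow 2 291720) (W15c2)))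
    (chkW_sound (by norm_num) (by norm_num) (by norm_num) c15_0)
    (@P_join (w8 19227 19228) 4641 10 (9) 46410 92820 291720 (.cons 2262 17 (.cons 5916 13 (.cons 6409 3 .nil))) W15c1 (W15c2)
    (chkW_sound (by norm_num) (by norm_num) (by norm_num) c15_1)
    (chkW_sound (by norm_num) (by norm_num) (by norm_num) c15_2) (by norm_num) rfl) (by norm_num) rfl
theorem u14 : W14 = P (w8 19227 12819) (.cons 4641 29 (.cons 2262 17 (.cons 5916 13 .nil))) 6409 :=
  chkW_sound (by norm_num) (by norm_num) (by norm_num) c14_0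
theorem u13 : W13 = P (w8 19227 13312) (.cons 4641 29 (.cons 2262 17 (.cons 6409 3 .nil))) 5916 :=
  chkW_sound (by norm_num) (by norm_num) (by norm_num) c13_0
theorem u12 : W12 = P (w8 19227 6903) (.cons 4641 29 (.cons 2262 17 .nil)) 12325 :=
  chkW_sound (by norm_num) (by norm_num) (by norm_num) c12_0
theorem u11 : W11 = P (w8 19227 16966) (.cons 4641 29 (.cons 5916 13 (.cons 6409 3 .nil))) 2262 :=
  chkW_sound (by norm_num) (by norm_num) (by norm_num) c11_0
theorem u10 : W10 = P (w8 19227 10557) (.cons 4641 29 (.cons 5916 13 .nil)) 8671 :=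
  chkW_sound (by norm_num) (by norm_num) (by norm_num) c10_0
theorem u9 : W9 = P (w8 19227 11050) (.cons 4641 29 (.cons 6409 3 .nil)) 8178 :=
  chkW_sound (by norm_num) (by norm_num) (by norm_num) c9_0
theorem u8 : W8 = P (w8 19227 4641) (.cons 4641 29 .nil) 14587 :=
  chkW_sound (by norm_num) (by norm_num) (by norm_num) c8_0
theorem u7 : W7 = P (w8 19227 14587) (.cons 2262 17 (.cons 5916 13 (.cons 6409 3 .nil))) 4641 :=
  chkW_sound (by norm_num) (by norm_num) (by norm_num) c7_0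
theorem u6 : W6 = P (w8 19227 8178) (.cons 2262 17 (.cons 5916 13 .nil)) 11050 :=
  chkW_sound (by norm_num) (by norm_num) (by norm_num) c6_0
theorem u5 : W5 = P (w8 19227 8671) (.cons 2262 17 (.cons 6409 3 .nil)) 10557 :=
  chkW_sound (by norm_num) (by norm_num) (by norm_num) c5_0
theorem u4 : W4 = P (w8 19227 2262) (.cons 2262 17 .nil) 16966 :=
  chkW_sound (by norm_num) (by norm_num) (by norm_num) c4_0
theorem u3 : W3 = P (w8 19227 12325) (.cons 5916 13 (.cons 6409 3 .nil)) 6903 :=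
  chkW_sound (by norm_num) (by norm_num) (by norm_num) c3_0
theorem u2 : W2 = P (w8 19227 5916) (.cons 5916 13 .nil) 13312 :=
  chkW_sound (by norm_num) (by norm_num) (by norm_num) c2_0
theorem u1 : W1 = P (w8 19227 6409) (.cons 6409 3 .nil) 12819 :=
  chkW_sound (by norm_num) (by norm_num) (by norm_num) c1_0
theorem tr_eq : tr = TR (w8 19227) [(4641, 29, 204397836, 1), (2262, 17, 23784, 1), (5916, 13, 2532, 1), (6409, 3, 4, 255)] .nil 0 0 :=
  mk_node (mk_node (mk_node (mk_node (mk_leaf rfl u15) (mk_leaf rfl u14)) (mk_node (mk_leaf rfl u13) (mk_leaf rfl u12))) (mk_node (mk_node (mk_leaf rfl u11) (mk_leaf rfl u10)) (mk_node (mk_leaf rfl u9) (mk_leaf rfl u8)))) (mk_node (mk_node (mk_node (mk_leaf rfl u7) (mk_leaf rfl u6)) (mk_node (mk_leaf rfl u5) (mk_leaf rfl u4))) (mk_node (mk_node (mk_leaf rfl u3) (mk_leaf rfl u2)) (mk_node (mk_leaf rfl u1) (mk_leaf rfl (w8_zero _ _).symm))))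
theorem tb (d : ℤ) (n : ℕ)
    (h : ∀ l ∈ ({29, 17, 13, 3} : Finset ℕ), jacobiSym ((n : ℤ) ^ 2 + 4) l = -1) :
    (512 : ℤ) ∣ Pool.Agent.N367.LE.SEr d {29, 17, 13, 3} n -
      256 * (((BT19227 >>> (((n % 29 * 17 + n % 17) * 13 + n % 13) * 3 + n % 3)) % 2 : ℕ) : ℤ) :=
  tb_gen (m := 19227) pd29 pd17 pd13 pd3 (by norm_num) (by norm_num) (by norm_num)
    (by norm_num) (by norm_num) (by norm_num) (show Idem 3 13 17 29 6409 5916 2262 4641 from Idem.of (by decide)) (by norm_num) (by norm_num)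
    (by norm_num) (by rw [← tr_eq]; exact ev_true) d n h

end Pool.Agent.N156.HT.D19227
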