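import Pool.Agent.N156.HT.H9
import Pool.Agent.N156.HT.D6783

/-! The sum for 19 17 7 3. -/

namespace Pool.Agent.N156.HT.D6783

open Pool.Agent.N156.HT Pool.Agent.N911.L

theorem u15 : W15 = P (w8 6783 20350) (.cons 4998 19 (.cons 5985 17 (.cons 4845 7 (.cons 4522 3 .nil)))) 0 :=
  chkW_sound (by norm_num) (by norm_num) (by norm_num) c15_0
theorem u14 : W14 = P (w8 6783 15828) (.cons 4998 19 (.cons 5985 17 (.cons 4845 7 .nil))) 4522 :=
  chkW_sound (by norm_num) (by norm_num) (by norm_num) c14_0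
theorem u13 : W13 = P (w8 6783 15505) (.cons 4998 19 (.cons 5985 17 (.cons 4522 3 .nil))) 4845 :=
  chkW_sound (by norm_num) (by norm_num) (by norm_num) c13_0
theorem u12 : W12 = P (w8 6783 10983) (.cons 4998 19 (.cons 5985 17 .nil)) 9367 :=
  chkW_sound (by norm_num) (by norm_num) (by norm_num) c12_0
theorem u11 : W11 = P (w8 6783 14365) (.cons 4998 19 (.cons 4845 7 (.cons 4522 3 .nil))) 5985 :=
  chkW_sound (by norm_num) (by norm_num) (by norm_num) c11_0
theorem u10 : W10 = P (w8 6783 9843) (.cons 4998 19 (.cons 4845 7 .nil)) 10507 :=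
  chkW_sound (by norm_num) (by norm_num) (by norm_num) c10_0
theorem u9 : W9 = P (w8 6783 9520) (.cons 4998 19 (.cons 4522 3 .nil)) 10830 :=
  chkW_sound (by norm_num) (by norm_num) (by norm_num) c9_0
theorem u8 : W8 = P (w8 6783 4998) (.cons 4998 19 .nil) 15352 :=
  chkW_sound (by norm_num) (by norm_num) (by norm_num) c8_0
theorem u7 : W7 = P (w8 6783 15352) (.cons 5985 17 (.cons 4845 7 (.cons 4522 3 .nil))) 4998 :=
  chkW_sound (by norm_num) (by norm_num) (by norm_num) c7_0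
theorem u6 : W6 = P (w8 6783 10830) (.cons 5985 17 (.cons 4845 7 .nil)) 9520 :=
  chkW_sound (by norm_num) (by norm_num) (by norm_num) c6_0
theorem u5 : W5 = P (w8 6783 10507) (.cons 5985 17 (.cons 4522 3 .nil)) 9843 :=
  chkW_sound (by norm_num) (by norm_num) (by norm_num) c5_0
theorem u4 : W4 = P (w8 6783 5985) (.cons 5985 17 .nil) 14365 :=
  chkW_sound (by norm_num) (by norm_num) (by norm_num) c4_0
theorem u3 : W3 = P (w8 6783 9367) (.cons 4845 7 (.cons 4522 3 .nil)) 10983 :=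
  chkW_sound (by norm_num) (by norm_num) (by norm_num) c3_0
theorem u2 : W2 = P (w8 6783 4845) (.cons 4845 7 .nil) 15505 :=
  chkW_sound (by norm_num) (by norm_num) (by norm_num) c2_0
theorem u1 : W1 = P (w8 6783 4522) (.cons 4522 3 .nil) 15828 :=
  chkW_sound (by norm_num) (by norm_num) (by norm_num) c1_0
theorem tr_eq : tr = TR (w8 6783) [(4998, 19, 324876, 255), (5985, 17, 23784, 1), (4845, 7, 104, 255), (4522, 3, 4, 255)] .nil 0 0 :=
  mk_node (mk_node (mk_node (mk_node (mk_leaf rfl u15) (mk_leaf rfl u14)) (mk_node (mk_leaf rfl u13) (mk_leaf rfl u12))) (mk_node (mk_node (mk_leaf rfl u11) (mk_leaf rfl u10)) (mk_node (mk_leaf rfl u9) (mk_leaf rfl u8)))) (mk_node (mk_node (mk_node (mk_leaf rfl u7) (mk_leaf rfl u6)) (mk_node (mk_leaf rfl u5) (mk_leaf rfl u4))) (mk_node (mk_node (mk_leaf rfl u3) (mk_leaf rfl u2)) (mk_node (mk_leaf rfl u1) (mk_leaf rfl (w8_zero _ _).symm))))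
theorem tb (d : ℤ) (n : ℕ)
    (h : ∀ l ∈ ({19, 17, 7, 3} : Finset ℕ), jacobiSym ((n : ℤ) ^ 2 + 4) l = -1) :
    (512 : ℤ) ∣ Pool.Agent.N367.LE.SEr d {19, 17, 7, 3} n -
      256 * (((BT6783 >>> (((n % 19 * 17 + n % 17) * 7 + n % 7) * 3 + n % 3)) % 2 : ℕ) : ℤ) :=
  tb_gen (m := 6783) pd19 pd17 pd7 pd3 (by norm_num) (by norm_num) (by norm_num)
    (by norm_num) (by norm_num) (by norm_num) (show Idem 3 7 17 19 4522 4845 5985 4998 from Idem.of (by decide)) (by norm_num) (by norm_num)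
    (by norm_num) (by rw [← tr_eq]; exact ev_true) d n h

end Pool.Agent.N156.HT.D6783
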